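import Pool.Agent.Helper22.E6.Crit

set_option autoImplicit false

/-! # Certificates for m = 10, r < (m + 3) ^ 2 (helper22, cut by helper42), MP_e6aa12_ag -/

namespace Pool.Agent.Helper42.SM

open Pool.Agent.Helper22.E6 Pool.Agent.Helper41.Fat

variable {K : Type*} [Field K]
/-- certificates for `m = 10`, `10 ≤ r < 51` -/
def cert_10_0 : List Cert := [
  ⟨10, 31, 2, 16, [.N 1, .N 1, .N 1]⟩,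
  ⟨10, 32, 2, 17, [.N 1, .M 8 [(0, [(81, 0), (17, 10), (4, 12)]), (8, [(73, 0), (15, 9), (4, 11)]), (16, [(65, 0), (14, 8), (1, 9), (2, 10)]), (24, [(57, 0), (12, 7), (2, 8)]), (32, [(49, 0), (10, 6), (2, 7)]), (40, [(41, 0), (8, 5), (2, 6)]), (48, [(33, 0), (7, 4), (1, 5)]), (56, [(25, 0), (5, 3)]), (64, [(17, 0), (3, 2)]), (72, [(9, 0), (1, 1)]), (80, [(1, 0)])]]⟩,
  ⟨12, 34, 2, 18, [.N 3]⟩,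
  ⟨12, 35, 2, 18, [.N 1, .M 7 [(0, [(88, 0), (9, 12), (1, 13), (1, 14)]), (7, [(81, 0), (8, 10), (1, 12)]), (14, [(74, 0), (8, 10)]), (21, [(67, 0), (7, 9), (1, 10)]), (28, [(60, 0), (6, 8), (1, 9)]), (35, [(53, 0), (5, 6), (1, 8)]), (42, [(46, 0), (5, 6)]), (49, [(39, 0), (4, 5), (1, 6)]), (56, [(32, 0), (3, 4), (1, 5)]), (63, [(25, 0), (2, 2)]), (70, [(18, 0), (2, 2)]), (77, [(11, 0), (1, 1)]), (84, [(4, 0)])], .N 1, .N 1]⟩,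
  ⟨13, 36, 3, 13, [.N 1, .N 1]⟩,
  ⟨13, 37, 3, 13, [.N 2]⟩,
  ⟨14, 37, 2, 19, [.N 3, .N 1]⟩,
  ⟨14, 38, 2, 20, [.N 3, .N 1]⟩,
  ⟨15, 39, 2, 20, [.N 1, .N 2, .N 1, .N 1]⟩,
  ⟨15, 40, 3, 14, [.N 3]⟩,
  ⟨16, 40, 3, 14, [.N 3]⟩,
  ⟨16, 41, 4, 11, []⟩,
  ⟨17, 41, 2, 21, [.N 3, .N 2]⟩,
  ⟨17, 42, 2, 22, [.N 1, .N 4]⟩,
  ⟨19, 44, 2, 23, [.N 1, .N 1, .N 1, .N 2, .N 1, .N 1]⟩,
  ⟨19, 45, 3, 16, [.N 4]⟩,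
  ⟨21, 46, 3, 16, [.N 4, .N 1]⟩,
  ⟨21, 47, 3, 16, [.N 4, .N 1]⟩,
  ⟨22, 48, 3, 17, [.N 5]⟩,
  ⟨23, 48, 4, 13, [.N 3]⟩,
  ⟨23, 49, 3, 17, [.N 4, .N 1, .N 1]⟩,
  ⟨24, 49, 1, 50, [.N 4]⟩,
  ⟨24, 50, 4, 13, [.N 2, .N 2]⟩,
  ⟨25, 50, 3, 17, [.N 6]⟩,
  ⟨25, 51, 5, 11, []⟩,
  ⟨26, 51, 5, 11, [.N 1]⟩,
  ⟨26, 52, 2, 27, [.N 1, .N 6, .N 1]⟩,
  ⟨27, 53, 5, 11, [.N 1]⟩,
  ⟨28, 54, 4, 14, [.N 1, .M 19 [(0, [(227, 0), (10, 11), (1, 12)]), (19, [(208, 0), (9, 10), (1, 11)]), (38, [(189, 0), (8, 9), (1, 10)]), (57, [(170, 0), (7, 8), (1, 9)]), (76, [(151, 0), (6, 7), (1, 8)]), (95, [(132, 0), (5, 5), (1, 7)]), (114, [(113, 0), (5, 5)]), (133, [(94, 0), (4, 4), (1, 5)]), (152, [(75, 0), (3, 3), (1, 4)]), (171, [(56, 0), (2, 2), (1, 3)]), (190, [(37,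 0), (1, 1), (1, 2)]), (209, [(18, 0)])], .N 1, .N 1, .N 2]⟩,
  ⟨28, 55, 3, 19, [.N 7]⟩,
  ⟨30, 55, 4, 14, [.N 6]⟩,
  ⟨30, 56, 2, 29, [.N 1, .N 7, .N 1]⟩,
  ⟨32, 57, 4, 15, [.N 7]⟩,
  ⟨32, 58, 3, 20, [.N 8]⟩,
  ⟨34, 59, 5, 12, [.N 4]⟩,
  ⟨34, 60, 5, 13, [.N 4]⟩,
  ⟨35, 60, 5, 13, [.N 4, .N 1]⟩,
  ⟨35, 61, 5, 13, [.N 5]⟩,
  ⟨36, 61, 5, 13, [.N 5]⟩,
  ⟨36, 62, 6, 11, []⟩,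
  ⟨37, 62, 4, 16, [.N 7, .N 2]⟩,
  ⟨37, 63, 3, 22, [.N 9]⟩,
  ⟨38, 63, 6, 11, [.N 1]⟩,
  ⟨38, 64, 4, 17, [.N 9]⟩,
  ⟨39, 64, 5, 13, [.N 2, .N 1, .M 33 [(0, [(350, 0), (18, 10), (2, 11)]), (33, [(317, 0), (16, 9), (2, 10)]), (66, [(284, 0), (14, 8), (2, 9)]), (99, [(251, 0), (13, 7), (1, 8)]), (132, [(218, 0), (12, 6)]), (165, [(185, 0), (10, 5)]), (198, [(152, 0), (8, 4)]), (231, [(119, 0), (6, 3)]), (264, [(86, 0), (4, 2)]), (297, [(53, 0), (2, 1)]), (330, [(20, 0)])], .N 2]⟩,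
  ⟨39, 65, 3, 22, [.N 10]⟩,
  ⟨40, 64, 5, 13, [.N 7]⟩,
  ⟨41, 65, 5, 14, [.N 7]⟩,
  ⟨41, 66, 5, 14, [.N 7]⟩,
  ⟨43, 67, 5, 14, [.N 7, .N 1]⟩,
  ⟨43, 68, 2, 35, [.N 9]⟩,
  ⟨45, 68, 4, 18, [.N 11]⟩,
  ⟨45, 69, 3, 24, [.N 4, .N 9, .N 2]⟩,
  ⟨47, 70, 5, 15, [.N 7, .N 3]⟩,
  ⟨47, 71, 5, 15, [.N 9]⟩,
  ⟨48, 72, 1, 73, [.N 6]⟩,
  ⟨49, 71, 5, 15, [.N 10]⟩,
  ⟨49, 72, 7, 11, []⟩,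
  ⟨50, 72, 7, 11, [.N 1]⟩,
  ⟨50, 73, 5, 15, [.N 9, .N 2]⟩]

theorem tab_10_0 : tabB 10 cert_10_0 41 10 31 = true := by decide +kernel

/-- certificates for `m = 10`, `51 ≤ r < 100` -/
def cert_10_1 : List Cert := [
  ⟨51, 73, 6, 13, [.N 7]⟩,
  ⟨51, 74, 6, 13, [.N 7]⟩,
  ⟨52, 74, 3, 25, [.N 2, .N 12, .N 2]⟩,
  ⟨52, 75, 4, 19, [.N 13]⟩,
  ⟨53, 74, 6, 13, [.N 8]⟩,
  ⟨53, 75, 7, 11, [.N 2]⟩,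
  ⟨54, 75, 5, 16, [.N 12]⟩,
  ⟨54, 76, 3, 26, [.N 13]⟩,
  ⟨56, 76, 6, 13, [.N 9]⟩,
  ⟨56, 77, 2, 39, [.N 3, .N 13, .N 2]⟩,
  ⟨58, 78, 2, 40, [.N 11, .N 1]⟩,
  ⟨58, 79, 3, 27, [.N 14]⟩,
  ⟨60, 79, 5, 16, [.N 14]⟩,
  ⟨60, 80, 4, 21, [.N 15]⟩,
  ⟨62, 81, 6, 14, [.N 2, .M 43 [(0, [(503, 0), (31, 11), (3, 12)]), (43, [(460, 0), (28, 10), (3, 11)]), (86, [(417, 0), (25, 9), (3, 10)]), (129, [(374, 0), (22, 8), (3, 9)]), (172, [(331, 0), (19, 7), (3, 8)]), (215, [(288, 0), (16, 6), (3, 7)]), (258, [(245, 0), (13, 5), (3, 6)]), (301, [(202, 0), (12, 4)]), (344, [(159, 0), (9, 3)]), (387, [(116, 0), (6, 2)]), (430, [(73, 0), (3, 1)]), (473, [(30, 0)])], .N 3, .N 5]⟩,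
  ⟨62, 82, 5, 17, [.N 14]⟩,
  ⟨64, 82, 7, 12, [.N 7]⟩,
  ⟨64, 83, 8, 11, []⟩,
  ⟨65, 84, 8, 11, []⟩,
  ⟨66, 83, 5, 17, [.N 16]⟩,
  ⟨66, 84, 8, 11, [.N 1]⟩,
  ⟨67, 84, 5, 17, [.N 14, .N 3]⟩,
  ⟨67, 85, 4, 22, [.N 17]⟩,
  ⟨68, 84, 6, 15, [.N 14]⟩,
  ⟨68, 85, 8, 11, [.N 2]⟩,
  ⟨69, 85, 8, 11, [.N 3]⟩,
  ⟨69, 86, 3, 29, [.N 16]⟩,
  ⟨70, 86, 8, 11, [.N 3]⟩,
  ⟨71, 86, 6, 15, [.N 15]⟩,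
  ⟨71, 87, 7, 13, [.N 5, .N 6]⟩,
  ⟨73, 88, 3, 30, [.N 2, .N 17, .N 2]⟩,
  ⟨73, 89, 2, 45, [.N 13]⟩,
  ⟨75, 89, 5, 18, [.N 17, .N 2]⟩,
  ⟨75, 90, 3, 31, [.N 17]⟩,
  ⟨77, 90, 8, 12, [.N 6]⟩,
  ⟨77, 91, 4, 23, [.N 19]⟩,
  ⟨79, 91, 8, 12, [.N 7]⟩,
  ⟨79, 92, 4, 24, [.N 19, .N 1]⟩,
  ⟨81, 92, 7, 14, [.N 14]⟩,
  ⟨81, 93, 9, 11, []⟩,
  ⟨83, 94, 3, 32, [.N 17, .N 4]⟩,
  ⟨83, 95, 5, 20, [.N 21]⟩,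
  ⟨85, 95, 4, 24, [.N 20, .N 2]⟩,
  ⟨85, 96, 4, 25, [.N 21]⟩,
  ⟨86, 96, 5, 20, [.N 18, .N 6]⟩,
  ⟨87, 96, 9, 11, [.N 3]⟩,
  ⟨87, 97, 3, 33, [.N 19]⟩,
  ⟨88, 96, 7, 14, [.N 17]⟩,
  ⟨88, 97, 8, 13, [.N 4, .N 8]⟩,
  ⟨89, 97, 9, 11, [.N 4]⟩,
  ⟨90, 98, 4, 25, [.N 2, .N 21, .N 3]⟩,
  ⟨90, 99, 2, 50, [.N 15]⟩,
  ⟨92, 99, 4, 25, [.N 2, .N 22, .N 2]⟩,
  ⟨92, 100, 3, 34, [.N 20]⟩,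
  ⟨94, 100, 4, 26, [.N 22, .N 2]⟩,
  ⟨94, 101, 3, 34, [.N 20]⟩,
  ⟨96, 101, 5, 21, [.N 23, .N 2]⟩,
  ⟨96, 102, 4, 26, [.N 23]⟩,
  ⟨98, 102, 5, 21, [.N 23, .N 3]⟩,
  ⟨98, 103, 8, 13, [.N 15]⟩]

theorem tab_10_1 : tabB 10 cert_10_1 49 51 73 = true := by decide +kernel

/-- certificates for `m = 10`, `100 ≤ r < 158` -/
def cert_10_2 : List Cert := [
  ⟨100, 103, 9, 12, [.N 9]⟩,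
  ⟨100, 104, 10, 11, []⟩,
  ⟨102, 104, 9, 12, [.N 10]⟩,
  ⟨102, 105, 9, 12, [.N 10]⟩,
  ⟨104, 105, 9, 12, [.N 11]⟩,
  ⟨104, 106, 4, 27, [.N 25]⟩,
  ⟨106, 106, 10, 11, [.N 3]⟩,
  ⟨106, 107, 3, 36, [.N 22]⟩,
  ⟨108, 107, 10, 11, [.N 4]⟩,
  ⟨108, 108, 5, 22, [.N 27]⟩,
  ⟨109, 108, 9, 13, [.N 4, .M 90 [(0, [(990, 0), (10, 11)]), (90, [(900, 0), (9, 10)]), (180, [(810, 0), (8, 9)]), (270, [(720, 0), (7, 8)]), (360, [(630, 0), (6, 7)]), (450, [(540, 0), (5, 6)]), (540, [(450, 0), (4, 5)]), (630, [(360, 0), (3, 4)]), (720, [(270, 0), (2, 3)]), (810, [(180, 0), (1, 2)]), (900, [(90, 0)])], .N 9]⟩,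
  ⟨109, 109, 2, 55, [.N 17]⟩,
  ⟨110, 108, 10, 11, [.N 5]⟩,
  ⟨111, 109, 9, 13, [.N 3, .M 90 [(0, [(990, 0), (30, 11)]), (90, [(900, 0), (27, 10)]), (180, [(810, 0), (24, 9)]), (270, [(720, 0), (21, 8)]), (360, [(630, 0), (18, 7)]), (450, [(540, 0), (15, 6)]), (540, [(450, 0), (12, 5)]), (630, [(360, 0), (9, 4)]), (720, [(270, 0), (6, 3)]), (810, [(180, 0), (3, 2)]), (900, [(90, 0)])], .N 9]⟩,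
  ⟨111, 110, 2, 56, [.N 17]⟩,
  ⟨113, 109, 7, 16, [.N 26]⟩,
  ⟨113, 110, 9, 13, [.N 4, .M 92 [(0, [(1011, 0), (26, 10), (3, 11)]), (92, [(919, 0), (23, 9), (3, 10)]), (184, [(827, 0), (20, 8), (3, 9)]), (276, [(735, 0), (17, 7), (3, 8)]), (368, [(643, 0), (14, 6), (3, 7)]), (460, [(551, 0), (11, 5), (3, 6)]), (552, [(459, 0), (8, 4), (3, 5)]), (644, [(367, 0), (5, 3), (3, 4)]), (736, [(275, 0), (2, 2), (3, 3)]), (828, [(183, 0), (1, 1), (1, 2)]), (920, [(91, 0)])], .N 9]⟩,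
  ⟨115, 110, 8, 14, [.N 22]⟩,
  ⟨115, 111, 9, 13, [.M 81 [(0, [(972, 0), (10, 12)]), (81, [(891, 0)]), (162, [(810, 0)]), (243, [(729, 0)]), (324, [(648, 0)]), (405, [(567, 0)]), (486, [(486, 0)]), (567, [(405, 0)]), (648, [(324, 0)]), (729, [(243, 0)]), (810, [(162, 0)]), (891, [(81, 0)])], .M 89 [(0, [(982, 0), (78, 11)]), (89, [(891, 0), (72, 10)]), (178, [(802, 0), (64, 9)]), (267, [(713, 0), (56, 8)]), (356, [(624, 0), (48, 7)]), (445, [(535, 0), (40, 6)]), (534, [(446, 0), (32, 5)]), (623, [(357, 0), (24, 4)]), (712, [(268, 0), (16, 3)]), (801, [(179, 0), (8, 2)]), (890, [(90, 0)]), (979, [(1, 0)])], .N 9]⟩,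
  ⟨117, 111, 8, 14, [.N 23]⟩,
  ⟨117, 112, 9, 13, [.M 82 [(0, [(981, 0), (11, 11), (7, 12)]), (82, [(899, 0), (10, 10), (1, 11)]), (164, [(817, 0), (9, 9), (1, 10)]), (246, [(735, 0), (8, 8), (1, 9)]), (328, [(653, 0), (7, 7), (1, 8)]), (410, [(571, 0), (6, 6), (1, 7)]), (492, [(489, 0), (5, 5), (1, 6)]), (574, [(407, 0), (4, 4), (1, 5)]), (656, [(325, 0), (3, 3), (1, 4)]), (738, [(243, 0), (2, 2)]), (820, [(161, 0), (1, 1)]), (902, [(79, 0)])], .M 91 [(0, [(999, 0), (73, 10), (8, 11)]), (91, [(908, 0), (65, 9), (8, 10)]), (182, [(817, 0), (58, 8), (7, 9)]), (273, [(726, 0), (50, 7), (8, 8)]), (364, [(635, 0), (42, 6), (8, 7)]), (455, [(544, 0), (34, 5), (8, 6)]), (546, [(453, 0), (26, 4), (8, 5)]), (637, [(362, 0), (18, 3), (8, 4)]),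 (728, [(271, 0), (10, 2), (8, 3)]), (819, [(180, 0), (2, 1), (8, 2)]), (910, [(89, 0)])], .N 9]⟩,
  ⟨119, 112, 10, 12, [.N 9]⟩,
  ⟨119, 113, 3, 38, [.N 22, .N 6]⟩,
  ⟨121, 113, 9, 13, [.N 18]⟩,
  ⟨121, 114, 11, 11, []⟩,
  ⟨123, 114, 9, 13, [.N 19]⟩,
  ⟨123, 115, 11, 11, [.N 1]⟩,
  ⟨125, 115, 8, 15, [.N 26]⟩,
  ⟨125, 116, 11, 11, [.N 2]⟩,
  ⟨127, 116, 10, 12, [.N 13]⟩,
  ⟨127, 117, 4, 30, [.N 29]⟩,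
  ⟨129, 117, 10, 12, [.N 14]⟩,
  ⟨129, 118, 3, 40, [.N 25]⟩,
  ⟨131, 118, 11, 11, [.N 5]⟩,
  ⟨131, 119, 11, 11, [.N 5]⟩,
  ⟨132, 120, 2, 61, [.N 19]⟩,
  ⟨133, 119, 11, 11, [.N 6]⟩,
  ⟨134, 120, 6, 21, [.N 32, .N 3]⟩,
  ⟨136, 120, 10, 13, [.N 17]⟩,
  ⟨136, 121, 3, 41, [.N 26]⟩,
  ⟨138, 121, 10, 13, [.N 18]⟩,
  ⟨138, 122, 4, 31, [.N 31]⟩,
  ⟨140, 122, 10, 13, [.N 19]⟩,
  ⟨140, 123, 6, 21, [.N 35]⟩,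
  ⟨142, 123, 11, 12, [.N 10]⟩,
  ⟨142, 124, 8, 16, [.N 31]⟩,
  ⟨144, 124, 11, 12, [.N 11]⟩,
  ⟨144, 125, 12, 11, []⟩,
  ⟨146, 125, 4, 32, [.N 31, .N 4]⟩,
  ⟨146, 126, 8, 16, [.N 33]⟩,
  ⟨148, 126, 6, 22, [.N 35, .N 4]⟩,
  ⟨148, 127, 4, 32, [.N 33]⟩,
  ⟨150, 126, 9, 15, [.N 30]⟩,
  ⟨150, 127, 12, 11, [.N 3]⟩,
  ⟨152, 127, 11, 12, [.N 15]⟩,
  ⟨152, 128, 3, 43, [.N 28]⟩,
  ⟨154, 128, 12, 11, [.N 5]⟩,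
  ⟨154, 129, 5, 26, [.N 37]⟩,
  ⟨156, 129, 12, 11, [.N 6]⟩,
  ⟨156, 130, 2, 66, [.N 21]⟩]

theorem tab_10_2 : tabB 10 cert_10_2 58 100 103 = true := by decide +kernel

/-- certificates for `m = 10`, `158 ≤ r < 233` -/
def cert_10_3 : List Cert := [
  ⟨158, 130, 12, 11, [.N 7]⟩,
  ⟨161, 132, 3, 45, [.N 29]⟩,
  ⟨163, 132, 12, 12, [.N 9]⟩,
  ⟨163, 133, 4, 34, [.N 35]⟩,
  ⟨165, 133, 7, 20, [.N 38, .N 5]⟩,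
  ⟨165, 134, 5, 27, [.N 39]⟩,
  ⟨167, 134, 11, 13, [.N 1, .N 8, .N 14]⟩,
  ⟨167, 135, 1, 136, [.N 12]⟩,
  ⟨169, 134, 11, 13, [.N 22]⟩,
  ⟨169, 135, 13, 11, []⟩,
  ⟨171, 135, 12, 12, [.N 13]⟩,
  ⟨171, 136, 12, 12, [.N 13]⟩,
  ⟨173, 136, 12, 12, [.N 12, .N 2]⟩,
  ⟨173, 137, 6, 23, [.N 43]⟩,
  ⟨175, 137, 7, 20, [.N 41, .N 5]⟩,
  ⟨175, 138, 4, 35, [.N 37]⟩,
  ⟨177, 138, 11, 13, [.N 3, .N 10, .N 15]⟩,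
  ⟨177, 139, 3, 47, [.N 31]⟩,
  ⟨179, 138, 12, 12, [.N 17]⟩,
  ⟨179, 139, 13, 11, [.N 5]⟩,
  ⟨181, 139, 13, 11, [.N 6]⟩,
  ⟨181, 140, 7, 21, [.N 45]⟩,
  ⟨183, 140, 13, 11, [.N 7]⟩,
  ⟨183, 141, 2, 71, [.N 23]⟩,
  ⟨185, 141, 13, 11, [.N 8]⟩,
  ⟨187, 141, 11, 13, [.N 30]⟩,
  ⟨190, 144, 4, 37, [.N 39]⟩,
  ⟨192, 144, 7, 21, [.N 47, .N 2]⟩,
  ⟨194, 144, 13, 12, [.N 12]⟩,
  ⟨194, 145, 13, 12, [.N 12]⟩,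
  ⟨196, 145, 13, 12, [.N 13]⟩,
  ⟨196, 146, 14, 11, []⟩,
  ⟨198, 146, 7, 21, [.N 47, .N 5]⟩,
  ⟨198, 147, 14, 11, []⟩,
  ⟨200, 146, 12, 13, [.N 26]⟩,
  ⟨200, 147, 7, 22, [.N 50]⟩,
  ⟨202, 147, 12, 13, [.N 27]⟩,
  ⟨202, 148, 5, 30, [.N 46]⟩,
  ⟨204, 148, 7, 22, [.N 48, .N 6]⟩,
  ⟨204, 149, 3, 50, [.N 34]⟩,
  ⟨206, 149, 2, 75, [.N 3, .N 12, .N 48, .N 7]⟩,
  ⟨206, 150, 3, 51, [.N 34]⟩,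
  ⟨208, 149, 14, 11, [.N 6]⟩,
  ⟨208, 150, 14, 11, [.N 6]⟩,
  ⟨210, 150, 14, 11, [.N 7]⟩,
  ⟨210, 151, 2, 76, [.N 25]⟩,
  ⟨212, 151, 14, 11, [.N 8]⟩,
  ⟨212, 152, 2, 77, [.N 25]⟩,
  ⟨214, 151, 13, 12, [.N 21]⟩,
  ⟨214, 152, 14, 11, [.N 9]⟩,
  ⟨216, 152, 14, 11, [.N 10]⟩,
  ⟨223, 156, 1, 157, [.N 14]⟩,
  ⟨225, 156, 15, 11, []⟩,
  ⟨227, 156, 14, 12, [.N 15]⟩,
  ⟨227, 157, 10, 16, [.N 51]⟩,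
  ⟨229, 157, 4, 40, [.N 43, .N 6]⟩,
  ⟨229, 158, 5, 32, [.N 51]⟩,
  ⟨231, 157, 12, 14, [.N 39]⟩,
  ⟨231, 158, 15, 11, [.N 3]⟩]

theorem tab_10_3 : tabB 10 cert_10_3 75 158 130 = true := by decide +kernel


theorem small_10 [Infinite K] (r : ℕ) (hr : 10 ≤ r) (hlt : r < 169) (d : ℕ) : Case K r 10 d := by
  by_cases c0 : r < 51
  · exact case_of_tabB 10 _ 41 10 31 tab_10_0 r (by omega) (by omega) d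
  by_cases c1 : r < 100
  · exact case_of_tabB 10 _ 49 51 73 tab_10_1 r (by omega) (by omega) d
  by_cases c2 : r < 158
  · exact case_of_tabB 10 _ 58 100 103 tab_10_2 r (by omega) (by omega) d
  exact case_of_tabB 10 _ 75 158 130 tab_10_3 r (by omega) (by omega) d

end Pool.Agent.Helper42.SM
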