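import Pool.Agent.Helper22.E6.Crit

set_option autoImplicit false

/-! # Certificates for m = 11, r < (m + 3) ^ 2 (helper22, cut by helper42), MP_e6aa12_ag -/

namespace Pool.Agent.Helper42.SM

open Pool.Agent.Helper22.E6 Pool.Agent.Helper41.Fat

variable {K : Type*} [Field K]
/-- certificates for `m = 11`, `10 ≤ r < 15` -/
def cert_11_0 : List Cert := [
  ⟨10, 34, 2, 18, [.N 1, .N 1, .N 1]⟩,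
  ⟨10, 35, 2, 18, [.N 1, .M 7 [(0, [(88, 0), (9, 12), (1, 13), (1, 14)]), (7, [(81, 0), (8, 10), (1, 12)]), (14, [(74, 0), (8, 10)]), (21, [(67, 0), (7, 9), (1, 10)]), (28, [(60, 0), (6, 8), (1, 9)]), (35, [(53, 0), (5, 6), (1, 8)]), (42, [(46, 0), (5, 6)]), (49, [(39, 0), (4, 5), (1, 6)]), (56, [(32, 0), (3, 4), (1, 5)]), (63, [(25, 0), (2, 2)]), (70, [(18, 0), (2, 2)]), (77, [(11, 0), (1, 1)]), (84, [(4, 0)])], .N 1]⟩,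
  ⟨12, 38, 2, 20, [.N 3]⟩,
  ⟨12, 39, 2, 20, [.N 3]⟩,
  ⟨13, 39, 3, 14, [.N 2]⟩,
  ⟨13, 40, 3, 14, [.N 1, .N 1]⟩,
  ⟨14, 41, 2, 21, [.N 3, .N 1]⟩,
  ⟨14, 42, 2, 22, [.N 3, .N 1]⟩]

theorem tab_11_0 : tabB 11 cert_11_0 5 10 34 = true := by decide +kernel

/-- certificates for `m = 11`, `16 ≤ r < 56` -/
def cert_11_1 : List Cert := [
  ⟨16, 44, 3, 15, [.N 3]⟩,
  ⟨16, 45, 4, 12, []⟩,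
  ⟨17, 45, 2, 23, [.N 3, .N 2]⟩,
  ⟨17, 46, 2, 24, [.N 1, .N 1, .N 1, .N 1, .N 2]⟩,
  ⟨19, 48, 2, 25, [.N 3, .N 3]⟩,
  ⟨19, 49, 3, 17, [.N 4]⟩,
  ⟨21, 51, 2, 26, [.N 3, .N 3, .N 1]⟩,
  ⟨21, 52, 2, 27, [.N 5]⟩,
  ⟨22, 52, 4, 14, [.N 2, .N 1]⟩,
  ⟨22, 53, 3, 18, [.N 5]⟩,
  ⟨23, 53, 3, 18, [.N 4, .N 2]⟩,
  ⟨23, 54, 3, 19, [.N 4, .N 2]⟩,
  ⟨24, 54, 4, 14, [.N 3, .N 1]⟩,
  ⟨24, 55, 3, 19, [.N 5, .N 1]⟩,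
  ⟨25, 55, 3, 19, [.N 6]⟩,
  ⟨25, 56, 5, 12, []⟩,
  ⟨26, 57, 2, 29, [.N 1, .N 6, .N 1]⟩,
  ⟨26, 58, 4, 15, [.N 4]⟩,
  ⟨27, 58, 5, 12, [.N 1]⟩,
  ⟨28, 59, 3, 20, [.N 5, .N 2, .N 1]⟩,
  ⟨28, 60, 3, 21, [.N 7]⟩,
  ⟨30, 61, 4, 16, [.N 6]⟩,
  ⟨30, 62, 2, 32, [.N 7]⟩,
  ⟨32, 63, 2, 32, [.N 7, .N 1]⟩,
  ⟨32, 64, 3, 22, [.N 8]⟩,
  ⟨33, 65, 4, 17, [.N 7]⟩,
  ⟨34, 65, 3, 22, [.N 8, .N 1]⟩,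
  ⟨34, 66, 5, 14, [.N 4]⟩,
  ⟨35, 66, 4, 17, [.N 7, .N 1]⟩,
  ⟨35, 67, 5, 14, [.N 5]⟩,
  ⟨36, 67, 5, 14, [.N 5]⟩,
  ⟨36, 68, 6, 12, []⟩,
  ⟨37, 68, 4, 18, [.N 7, .N 2]⟩,
  ⟨37, 69, 4, 18, [.N 7, .N 2]⟩,
  ⟨38, 69, 6, 12, [.N 1]⟩,
  ⟨38, 70, 5, 15, [.N 6]⟩,
  ⟨39, 70, 3, 24, [.N 7, .N 5]⟩,
  ⟨39, 71, 4, 18, [.N 9]⟩,
  ⟨41, 72, 5, 15, [.N 2, .N 1, .M 34 [(0, [(396, 0), (30, 11), (3, 12)]), (34, [(362, 0), (27, 10), (3, 11)]), (68, [(328, 0), (24, 9), (3, 10)]), (102, [(294, 0), (21, 8), (3, 9)]), (136, [(260, 0), (18, 7), (3, 8)]), (170, [(226, 0), (15, 6), (3, 7)]), (204, [(192, 0), (12, 5), (3, 6)]), (238, [(158, 0), (9, 4)]), (272, [(124, 0), (7, 3)]), (306, [(90, 0), (6, 2)]), (340, [(56, 0), (3, 1)]), (374, [(22, 0)])], .N 2]⟩,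
  ⟨41, 73, 2, 37, [.N 9]⟩,
  ⟨43, 73, 5, 15, [.N 8]⟩,
  ⟨43, 74, 5, 15, [.N 3, .M 35 [(0, [(407, 0), (41, 11), (4, 12)]), (35, [(372, 0), (37, 10), (4, 11)]), (70, [(337, 0), (33, 9), (4, 10)]), (105, [(302, 0), (29, 8), (4, 9)]), (140, [(267, 0), (25, 7), (4, 8)]), (175, [(232, 0), (21, 6), (4, 7)]), (210, [(197, 0), (17, 5), (4, 6)]), (245, [(162, 0), (16, 4), (1, 5)]), (280, [(127, 0), (12, 3)]), (315, [(92, 0), (8, 2)]), (350, [(57, 0), (4, 1)]), (385, [(22, 0)])], .N 2]⟩,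
  ⟨45, 75, 5, 16, [.N 8, .N 1]⟩,
  ⟨45, 76, 3, 26, [.N 11]⟩,
  ⟨47, 77, 5, 16, [.N 7, .N 3]⟩,
  ⟨47, 78, 6, 14, [.N 5]⟩,
  ⟨48, 78, 2, 40, [.N 3, .N 11, .N 2]⟩,
  ⟨48, 79, 1, 80, [.N 6]⟩,
  ⟨49, 78, 5, 16, [.N 10]⟩,
  ⟨49, 79, 7, 12, []⟩,
  ⟨50, 79, 7, 12, [.N 1]⟩,
  ⟨50, 80, 3, 27, [.N 11, .N 3]⟩,
  ⟨51, 80, 6, 14, [.N 7]⟩,
  ⟨51, 81, 6, 14, [.N 7]⟩,
  ⟨52, 81, 5, 17, [.N 9, .N 3]⟩,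
  ⟨52, 82, 4, 21, [.N 13]⟩,
  ⟨53, 82, 7, 12, [.N 2]⟩,
  ⟨54, 82, 5, 17, [.N 12]⟩,
  ⟨54, 83, 2, 42, [.N 3, .N 13, .N 1]⟩]

theorem tab_11_1 : tabB 11 cert_11_1 40 16 44 = true := by decide +kernel

/-- certificates for `m = 11`, `56 ≤ r < 104` -/
def cert_11_2 : List Cert := [
  ⟨56, 84, 6, 15, [.N 9]⟩,
  ⟨56, 85, 2, 43, [.N 11]⟩,
  ⟨58, 86, 3, 29, [.N 2, .N 13, .N 3]⟩,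
  ⟨58, 87, 3, 30, [.N 14]⟩,
  ⟨60, 87, 3, 30, [.N 14, .N 1]⟩,
  ⟨60, 88, 4, 23, [.N 15]⟩,
  ⟨62, 88, 7, 13, [.N 6]⟩,
  ⟨62, 89, 4, 23, [.N 15, .N 1]⟩,
  ⟨64, 90, 7, 13, [.N 7]⟩,
  ⟨64, 91, 8, 12, []⟩,
  ⟨65, 91, 3, 31, [.N 14, .N 3]⟩,
  ⟨65, 92, 8, 12, []⟩,
  ⟨66, 91, 5, 19, [.N 16]⟩,
  ⟨66, 92, 8, 12, [.N 1]⟩,
  ⟨67, 92, 6, 16, [.N 11, .N 3]⟩,
  ⟨67, 93, 6, 16, [.N 11, .N 3]⟩,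
  ⟨68, 93, 8, 12, [.N 2]⟩,
  ⟨68, 94, 4, 24, [.N 17]⟩,
  ⟨69, 93, 5, 19, [.N 17]⟩,
  ⟨69, 94, 7, 14, [.N 3, .M 57 [(0, [(683, 0), (19, 11), (2, 12)]), (57, [(626, 0), (17, 10), (2, 11)]), (114, [(569, 0), (15, 9), (2, 10)]), (171, [(512, 0), (13, 8), (2, 9)]), (228, [(455, 0), (11, 7), (2, 8)]), (285, [(398, 0), (9, 6), (2, 7)]), (342, [(341, 0), (7, 5), (2, 6)]), (399, [(284, 0), (5, 4), (2, 5)]), (456, [(227, 0), (4, 2), (1, 4)]), (513, [(170, 0), (4, 2)]), (570, [(113, 0), (2, 1), (2, 2)]), (627, [(56, 0)])], .N 5]⟩,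
  ⟨70, 94, 8, 12, [.N 3]⟩,
  ⟨71, 95, 3, 32, [.N 16, .N 1]⟩,
  ⟨71, 96, 5, 20, [.N 17]⟩,
  ⟨73, 96, 7, 14, [.N 11]⟩,
  ⟨73, 97, 5, 20, [.N 17, .N 1]⟩,
  ⟨75, 98, 7, 15, [.N 3, .M 59 [(0, [(712, 0), (44, 12)]), (59, [(653, 0), (42, 11)]), (118, [(594, 0), (39, 10)]), (177, [(535, 0), (35, 9)]), (236, [(476, 0), (31, 8)]), (295, [(417, 0), (27, 7)]), (354, [(358, 0), (23, 6)]), (413, [(299, 0), (19, 5)]), (472, [(240, 0), (15, 4)]), (531, [(181, 0), (11, 3)]), (590, [(122, 0), (7, 2)]), (649, [(63, 0), (3, 1)]), (708, [(4, 0)])], .N 3, .N 3]⟩,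
  ⟨75, 99, 3, 34, [.N 17]⟩,
  ⟨77, 99, 5, 20, [.N 17, .N 3]⟩,
  ⟨77, 100, 4, 26, [.N 19]⟩,
  ⟨79, 100, 8, 13, [.N 7]⟩,
  ⟨79, 101, 5, 21, [.N 19, .N 1]⟩,
  ⟨81, 101, 7, 15, [.N 14]⟩,
  ⟨81, 102, 9, 12, []⟩,
  ⟨83, 103, 3, 35, [.N 17, .N 4]⟩,
  ⟨83, 104, 6, 18, [.N 19]⟩,
  ⟨84, 104, 6, 18, [.N 17, .N 3]⟩,
  ⟨85, 104, 8, 14, [.N 10]⟩,
  ⟨85, 105, 4, 27, [.N 21]⟩,
  ⟨86, 105, 2, 53, [.N 5, .N 20, .N 3]⟩,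
  ⟨86, 106, 3, 36, [.N 19]⟩,
  ⟨87, 105, 8, 14, [.N 11]⟩,
  ⟨87, 106, 3, 36, [.N 19]⟩,
  ⟨88, 106, 6, 18, [.N 19, .N 2]⟩,
  ⟨88, 107, 3, 36, [.N 19]⟩,
  ⟨89, 106, 6, 18, [.N 21]⟩,
  ⟨90, 107, 8, 14, [.N 12]⟩,
  ⟨90, 108, 2, 55, [.N 15]⟩,
  ⟨92, 108, 9, 13, [.N 5]⟩,
  ⟨92, 109, 5, 22, [.N 23]⟩,
  ⟨94, 109, 8, 14, [.N 14]⟩,
  ⟨94, 110, 5, 23, [.N 23, .N 1]⟩,
  ⟨96, 111, 4, 28, [.N 3, .N 23, .N 2]⟩,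
  ⟨96, 112, 4, 29, [.N 23]⟩,
  ⟨98, 112, 5, 23, [.N 23, .N 3]⟩,
  ⟨98, 113, 8, 15, [.N 15]⟩,
  ⟨100, 113, 9, 13, [.N 9]⟩,
  ⟨100, 114, 10, 12, []⟩,
  ⟨102, 114, 9, 13, [.N 10]⟩,
  ⟨102, 115, 9, 13, [.N 10]⟩]

theorem tab_11_2 : tabB 11 cert_11_2 48 56 84 = true := by decide +kernel

/-- certificates for `m = 11`, `104 ≤ r < 159` -/
def cert_11_3 : List Cert := [
  ⟨104, 115, 8, 15, [.N 18]⟩,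
  ⟨104, 116, 5, 24, [.N 26]⟩,
  ⟨105, 117, 4, 30, [.N 25]⟩,
  ⟨106, 116, 9, 13, [.N 12]⟩,
  ⟨106, 117, 10, 12, [.N 3]⟩,
  ⟨107, 117, 6, 20, [.N 25, .N 2]⟩,
  ⟨107, 118, 3, 40, [.N 22]⟩,
  ⟨108, 117, 9, 14, [.N 13]⟩,
  ⟨108, 118, 10, 12, [.N 4]⟩,
  ⟨109, 118, 4, 30, [.N 25, .N 2]⟩,
  ⟨109, 119, 5, 24, [.N 27]⟩,
  ⟨111, 119, 9, 14, [.N 14]⟩,
  ⟨111, 120, 2, 61, [.N 17]⟩,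
  ⟨113, 120, 9, 14, [.N 15]⟩,
  ⟨113, 121, 3, 41, [.N 22, .N 3]⟩,
  ⟨115, 121, 10, 13, [.N 7]⟩,
  ⟨115, 122, 7, 18, [.N 24, .N 3]⟩,
  ⟨117, 122, 8, 16, [.N 23]⟩,
  ⟨117, 123, 7, 18, [.N 24, .N 4]⟩,
  ⟨119, 123, 10, 13, [.N 9]⟩,
  ⟨119, 124, 3, 42, [.N 22, .N 6]⟩,
  ⟨121, 124, 9, 14, [.N 18]⟩,
  ⟨121, 125, 11, 12, []⟩,
  ⟨123, 125, 9, 14, [.N 19]⟩,
  ⟨123, 126, 11, 12, [.N 1]⟩,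
  ⟨125, 126, 9, 15, [.N 20]⟩,
  ⟨125, 127, 11, 12, [.N 2]⟩,
  ⟨127, 127, 9, 15, [.N 21]⟩,
  ⟨127, 128, 11, 12, [.N 3]⟩,
  ⟨129, 128, 9, 15, [.N 22]⟩,
  ⟨129, 129, 11, 12, [.N 4]⟩,
  ⟨130, 130, 5, 27, [.N 32]⟩,
  ⟨131, 130, 11, 12, [.N 5]⟩,
  ⟨132, 130, 10, 14, [.N 15]⟩,
  ⟨132, 131, 2, 66, [.N 19]⟩,
  ⟨134, 131, 10, 14, [.N 16]⟩,
  ⟨134, 132, 11, 13, [.N 6]⟩,
  ⟨136, 132, 11, 13, [.N 7]⟩,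
  ⟨136, 133, 3, 45, [.N 26]⟩,
  ⟨138, 133, 11, 13, [.N 8]⟩,
  ⟨138, 134, 4, 34, [.N 31]⟩,
  ⟨140, 134, 11, 13, [.N 9]⟩,
  ⟨140, 135, 5, 28, [.N 34]⟩,
  ⟨142, 135, 11, 13, [.N 10]⟩,
  ⟨142, 136, 8, 18, [.N 31]⟩,
  ⟨144, 136, 11, 13, [.N 11]⟩,
  ⟨144, 137, 12, 12, []⟩,
  ⟨146, 137, 11, 13, [.N 11, .N 1]⟩,
  ⟨146, 138, 8, 18, [.N 33]⟩,
  ⟨148, 138, 11, 13, [.N 10, .N 3]⟩,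
  ⟨148, 139, 5, 28, [.N 36]⟩,
  ⟨150, 139, 6, 24, [.N 36, .N 3]⟩,
  ⟨150, 140, 4, 36, [.N 33]⟩,
  ⟨152, 140, 8, 18, [.N 32, .N 4]⟩,
  ⟨152, 141, 3, 48, [.N 28]⟩,
  ⟨154, 141, 12, 12, [.N 5]⟩,
  ⟨154, 142, 3, 48, [.N 28]⟩,
  ⟨156, 142, 12, 12, [.N 6]⟩,
  ⟨157, 143, 2, 72, [.N 21]⟩,
  ⟨158, 142, 10, 15, [.N 26]⟩]

theorem tab_11_3 : tabB 11 cert_11_3 55 104 115 = true := by decide +kernel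

/-- certificates for `m = 11`, `159 ≤ r < 225` -/
def cert_11_4 : List Cert := [
  ⟨159, 143, 11, 14, [.N 16, .N 2]⟩,
  ⟨159, 144, 5, 29, [.N 38]⟩,
  ⟨161, 144, 5, 29, [.N 36, .N 6]⟩,
  ⟨161, 145, 3, 49, [.N 29]⟩,
  ⟨163, 145, 5, 30, [.N 36, .N 7]⟩,
  ⟨163, 146, 4, 37, [.N 35]⟩,
  ⟨165, 146, 2, 74, [.N 3, .N 1, .N 1, .N 34, .N 5]⟩,
  ⟨165, 147, 5, 30, [.N 39]⟩,
  ⟨167, 146, 11, 14, [.N 21]⟩,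
  ⟨167, 147, 11, 14, [.N 4, .M 136 [(0, [(1625, 0), (73, 11), (7, 12)]), (136, [(1489, 0), (66, 10), (7, 11)]), (272, [(1353, 0), (59, 9), (7, 10)]), (408, [(1217, 0), (52, 8), (7, 9)]), (544, [(1081, 0), (45, 7), (7, 8)]), (680, [(945, 0), (38, 6), (7, 7)]), (816, [(809, 0), (31, 5), (7, 6)]), (952, [(673, 0), (24, 4), (7, 5)]), (1088, [(537, 0), (20, 3), (4, 4)]), (1224, [(401, 0), (14, 2), (6, 3)]), (1360, [(265, 0), (7, 1), (7, 2)]), (1496, [(129, 0)])], .N 12]⟩,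
  ⟨169, 147, 11, 14, [.N 22]⟩,
  ⟨169, 148, 13, 12, []⟩,
  ⟨171, 148, 11, 14, [.N 23]⟩,
  ⟨171, 149, 13, 12, [.N 1]⟩,
  ⟨173, 149, 12, 13, [.N 14]⟩,
  ⟨173, 150, 7, 22, [.N 43]⟩,
  ⟨175, 150, 12, 13, [.N 13, .N 2]⟩,
  ⟨175, 151, 4, 38, [.N 37]⟩,
  ⟨177, 151, 4, 38, [.N 36, .N 4]⟩,
  ⟨177, 152, 3, 51, [.N 31]⟩,
  ⟨179, 152, 13, 12, [.N 5]⟩,
  ⟨179, 153, 3, 52, [.N 31]⟩,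
  ⟨181, 153, 13, 12, [.N 6]⟩,
  ⟨181, 154, 2, 78, [.N 23]⟩,
  ⟨183, 153, 10, 16, [.N 36]⟩,
  ⟨183, 154, 13, 12, [.N 7]⟩,
  ⟨185, 154, 11, 15, [.N 29]⟩,
  ⟨186, 156, 3, 53, [.N 32]⟩,
  ⟨188, 156, 6, 27, [.N 37, .M 154 [(0, [(1843, 0), (65, 11), (6, 12)]), (154, [(1689, 0), (59, 10), (6, 11)]), (308, [(1535, 0), (53, 9), (6, 10)]), (462, [(1381, 0), (47, 8), (6, 9)]), (616, [(1227, 0), (41, 7), (6, 8)]), (770, [(1073, 0), (35, 6), (6, 7)]), (924, [(919, 0), (29, 5), (6, 6)]), (1078, [(765, 0), (23, 4), (6, 5)]), (1232, [(611, 0), (17, 3), (6, 4)]), (1386, [(457, 0), (11, 2), (6, 3)]), (1540, [(303, 0), (5, 1), (6, 2)]), (1694, [(149, 0)])], .N 14]⟩,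
  ⟨188, 157, 3, 53, [.N 32]⟩,
  ⟨190, 156, 11, 15, [.N 31]⟩,
  ⟨190, 157, 7, 23, [.N 47, .N 1]⟩,
  ⟨192, 157, 12, 14, [.N 23]⟩,
  ⟨192, 158, 5, 32, [.N 44, .N 1]⟩,
  ⟨194, 158, 13, 13, [.N 12]⟩,
  ⟨194, 159, 13, 13, [.N 12]⟩,
  ⟨196, 159, 13, 13, [.N 13]⟩,
  ⟨196, 160, 14, 12, []⟩,
  ⟨198, 160, 7, 23, [.N 47, .N 5]⟩,
  ⟨198, 161, 3, 54, [.N 33]⟩,
  ⟨200, 160, 11, 15, [.N 35]⟩,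
  ⟨200, 161, 7, 24, [.N 48, .N 4]⟩,
  ⟨202, 161, 13, 13, [.N 16]⟩,
  ⟨202, 162, 14, 12, [.N 3]⟩,
  ⟨204, 162, 13, 13, [.N 16, .N 1]⟩,
  ⟨204, 163, 13, 13, [.N 17]⟩,
  ⟨206, 163, 14, 12, [.N 5]⟩,
  ⟨206, 164, 3, 55, [.N 34]⟩,
  ⟨208, 164, 14, 12, [.N 6]⟩,
  ⟨208, 165, 5, 34, [.N 47]⟩,
  ⟨210, 164, 11, 15, [.N 39]⟩,
  ⟨210, 165, 14, 12, [.N 7]⟩,
  ⟨212, 165, 14, 12, [.N 8]⟩,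
  ⟨212, 166, 14, 12, [.N 8]⟩,
  ⟨214, 166, 14, 12, [.N 9]⟩,
  ⟨219, 169, 5, 34, [.N 49]⟩,
  ⟨221, 169, 5, 34, [.N 47, .N 7]⟩,
  ⟨221, 170, 10, 18, [.N 49]⟩,
  ⟨223, 170, 13, 14, [.N 6, .M 186 [(0, [(2220, 0), (52, 11), (5, 12)]), (186, [(2034, 0), (47, 10), (5, 11)]), (372, [(1848, 0), (42, 9), (5, 10)]), (558, [(1662, 0), (37, 8), (5, 9)]), (744, [(1476, 0), (32, 7), (5, 8)]), (930, [(1290, 0), (27, 6), (5, 7)]), (1116, [(1104, 0), (22, 5), (5, 6)]), (1302, [(918, 0), (17, 4), (5, 5)]), (1488, [(732, 0), (12, 3), (5, 4)]), (1674, [(546, 0), (7, 2)]), (1860, [(360, 0), (2, 1)]), (2046, [(174, 0)])], .N 16]⟩,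
  ⟨223, 171, 1, 172, [.N 14]⟩]

theorem tab_11_4 : tabB 11 cert_11_4 66 159 143 = true := by decide +kernel

def certx_11_15 : List Cert := [
  ⟨15, 44, 3, 15, [.N 3]⟩]

theorem tabx_11_15 : certB 15 11 44 certx_11_15 = true := by decide +kernel


theorem small_11 [Infinite K] (r : ℕ) (hr : 10 ≤ r) (h15 : r ≠ 15) (hlt : r < 196) (d : ℕ) : Case K r 11 d := by
  by_cases c0 : r < 15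
  · exact case_of_tabB 11 _ 5 10 34 tab_11_0 r (by omega) (by omega) d
  by_cases c1 : r < 56
  · exact case_of_tabB 11 _ 40 16 44 tab_11_1 r (by omega) (by omega) d
  by_cases c2 : r < 104
  · exact case_of_tabB 11 _ 48 56 84 tab_11_2 r (by omega) (by omega) d
  by_cases c3 : r < 159
  · exact case_of_tabB 11 _ 55 104 115 tab_11_3 r (by omega) (by omega) d
  exact case_of_tabB 11 _ 66 159 143 tab_11_4 r (by omega) (by omega) d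

end Pool.Agent.Helper42.SM
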