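import Pool.Agent.Helper22.E6.Crit

set_option autoImplicit false

/-! # Certificates for m = 12, r < (m + 3) ^ 2 (helper22, cut by helper42), MP_e6aa12_ag -/

namespace Pool.Agent.Helper42.SM

open Pool.Agent.Helper22.E6 Pool.Agent.Helper41.Fat

variable {K : Type*} [Field K]
/-- certificates for `m = 12`, `11 ≤ r < 14` -/
def cert_12_0 : List Cert := [
  ⟨12, 41, 2, 21, [.N 3]⟩,
  ⟨12, 42, 2, 22, [.N 1, .N 1, .M 10 [(0, [(122, 0), (19, 12), (3, 14)]), (10, [(112, 0), (18, 11), (2, 13)]), (20, [(102, 0), (16, 10), (2, 11), (1, 12)]), (30, [(92, 0), (14, 9), (2, 10)]), (40, [(82, 0), (13, 8), (1, 9)]), (50, [(72, 0), (11, 7), (2, 8)]), (60, [(62, 0), (9, 6), (2, 7)]), (70, [(52, 0), (8, 5), (1, 6)]), (80, [(42, 0), (7, 4)]), (90, [(32, 0), (5, 3)]), (100, [(22, 0), (3, 2)]),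 (110, [(12, 0), (1, 1)]), (120, [(2, 0)])]]⟩,
  ⟨13, 43, 3, 15, [.N 1, .N 1]⟩,
  ⟨13, 44, 3, 15, [.N 2]⟩]

theorem tab_12_0 : tabB 12 cert_12_0 3 11 39 = true := by decide +kernel

/-- certificates for `m = 12`, `15 ≤ r < 53` -/
def cert_12_1 : List Cert := [
  ⟨15, 46, 3, 16, [.N 2, .N 1]⟩,
  ⟨15, 47, 3, 16, [.N 1, .M 12 [(0, [(156, 0), (12, 13), (1, 14)]), (12, [(144, 0), (11, 12)]), (24, [(132, 0), (10, 11)]), (36, [(120, 0), (9, 10)]), (48, [(108, 0), (8, 9)]), (60, [(96, 0), (7, 8)]), (72, [(84, 0), (6, 7)]), (84, [(72, 0), (5, 5)]), (96, [(60, 0), (5, 5)]), (108, [(48, 0), (4, 4)]), (120, [(36, 0), (3, 3)]), (132, [(24, 0), (2, 2)]), (144, [(12, 0), (1, 1)])], .N 1]⟩,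
  ⟨16, 48, 3, 17, [.N 3]⟩,
  ⟨16, 49, 4, 13, []⟩,
  ⟨17, 50, 3, 17, [.N 1, .M 12 [(0, [(166, 0), (12, 13), (1, 14)]), (12, [(154, 0), (11, 12), (1, 13)]), (24, [(142, 0), (10, 11), (1, 12)]), (36, [(130, 0), (9, 10), (1, 11)]), (48, [(118, 0), (8, 9), (1, 10)]), (60, [(106, 0), (7, 8), (1, 9)]), (72, [(94, 0), (6, 7), (1, 8)]), (84, [(82, 0), (5, 5), (1, 7)]), (96, [(70, 0), (5, 5)]), (108, [(58, 0), (4, 4), (1, 5)]), (120, [(46, 0), (3, 3), (1, 4)]), (132, [(34, 0), (2, 2), (1, 3)]), (144, [(22, 0), (1, 1)]), (156, [(10, 0)])], .M 13 [(0, [(179, 0), (1, 9)]), (13, [(166, 0), (1, 9)]), (26, [(153, 0), (1, 9)]), (39, [(140, 0)]), (52, [(127, 0)]), (65, [(114, 0)]), (78, [(101, 0)]), (91, [(88, 0)]), (104, [(75, 0)]), (117, [(62, 0)]), (130, [(49, 0)]), (143, [(36, 0)]),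 (156, [(23, 0)]), (169, [(10, 0)])], .M 14 [(0, [(180, 0), (11, 12), (1, 13)]), (14, [(166, 0), (10, 11), (1, 12)]), (28, [(152, 0), (9, 10), (1, 11)]), (42, [(138, 0), (8, 9), (1, 10)]), (56, [(124, 0), (7, 8), (1, 9)]), (70, [(110, 0), (6, 7), (1, 8)]), (84, [(96, 0), (5, 6), (1, 7)]), (98, [(82, 0), (4, 5), (1, 6)]), (112, [(68, 0), (3, 4), (1, 5)]), (126, [(54, 0), (2, 2), (1, 4)]), (140, [(40, 0), (2, 2)]), (154, [(26, 0), (1, 1)]), (168, [(12, 0)])], .N 1]⟩,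
  ⟨17, 51, 3, 18, [.N 2, .N 2]⟩,
  ⟨19, 52, 3, 18, [.N 4]⟩,
  ⟨19, 53, 3, 18, [.N 1, .N 1, .M 14 [(0, [(191, 0), (11, 13), (1, 14)]), (14, [(177, 0), (10, 12), (1, 13)]), (28, [(163, 0), (9, 11), (1, 12)]), (42, [(149, 0), (8, 10), (1, 11)]), (56, [(135, 0), (7, 8), (1, 10)]), (70, [(121, 0), (7, 8)]), (84, [(107, 0), (6, 7), (1, 8)]), (98, [(93, 0), (5, 5), (1, 7)]), (112, [(79, 0), (5, 5)]), (126, [(65, 0), (4, 4)]), (140, [(51, 0), (3, 3)]), (154, [(37, 0), (2, 2)]), (168, [(23, 0), (1, 1)]), (182, [(9, 0)])], .N 1, .N 1]⟩,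
  ⟨21, 55, 3, 19, [.N 4, .N 1]⟩,
  ⟨21, 56, 3, 19, [.N 4, .N 1]⟩,
  ⟨22, 57, 4, 15, [.N 1, .M 19 [(0, [(240, 0), (11, 12), (1, 13)]), (19, [(221, 0), (10, 11), (1, 12)]), (38, [(202, 0), (9, 10), (1, 11)]), (57, [(183, 0), (8, 9), (1, 10)]), (76, [(164, 0), (7, 8), (1, 9)]), (95, [(145, 0), (6, 7)]), (114, [(126, 0), (5, 6)]), (133, [(107, 0), (4, 5)]), (152, [(88, 0), (3, 4)]), (171, [(69, 0), (2, 2)]), (190, [(50, 0), (2, 2)]), (209, [(31, 0), (1, 1)]), (228, [(12, 0)])], .N 1]⟩,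
  ⟨22, 58, 3, 20, [.N 5]⟩,
  ⟨23, 58, 3, 20, [.N 4, .N 2]⟩,
  ⟨23, 59, 4, 15, [.N 3]⟩,
  ⟨24, 59, 4, 15, [.N 3, .N 1]⟩,
  ⟨24, 60, 3, 21, [.N 5, .N 1]⟩,
  ⟨25, 60, 3, 21, [.N 6]⟩,
  ⟨25, 61, 5, 13, []⟩,
  ⟨26, 62, 3, 21, [.N 5, .N 2]⟩,
  ⟨26, 63, 4, 16, [.N 3, .N 2]⟩,
  ⟨27, 63, 5, 13, [.N 1]⟩,
  ⟨28, 64, 3, 22, [.N 7]⟩,
  ⟨28, 65, 3, 22, [.N 5, .N 3]⟩,
  ⟨30, 66, 4, 17, [.N 6]⟩,
  ⟨30, 67, 2, 34, [.N 1, .N 7, .N 1]⟩,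
  ⟨32, 69, 2, 35, [.N 1, .N 7, .N 2]⟩,
  ⟨32, 70, 3, 24, [.N 8]⟩,
  ⟨33, 70, 5, 15, [.N 2, .N 2]⟩,
  ⟨33, 71, 4, 18, [.N 7]⟩,
  ⟨34, 71, 3, 24, [.N 8, .N 1]⟩,
  ⟨34, 72, 5, 15, [.N 4]⟩,
  ⟨35, 72, 4, 19, [.N 7, .N 1]⟩,
  ⟨35, 73, 5, 15, [.N 5]⟩,
  ⟨36, 73, 5, 15, [.N 5]⟩,
  ⟨36, 74, 6, 13, []⟩,
  ⟨37, 74, 4, 19, [.N 7, .N 2]⟩,
  ⟨37, 75, 4, 19, [.N 7, .N 2]⟩,
  ⟨38, 75, 5, 16, [.N 6]⟩,
  ⟨38, 76, 5, 16, [.N 6]⟩,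
  ⟨39, 76, 4, 20, [.N 7, .N 3]⟩,
  ⟨39, 77, 4, 20, [.N 9]⟩,
  ⟨41, 78, 4, 20, [.N 9, .N 1]⟩,
  ⟨41, 79, 5, 16, [.N 7]⟩,
  ⟨43, 80, 5, 17, [.N 7, .N 1]⟩,
  ⟨43, 81, 5, 17, [.N 8]⟩,
  ⟨45, 82, 5, 17, [.N 7, .N 2]⟩,
  ⟨45, 83, 3, 28, [.N 11]⟩,
  ⟨46, 84, 4, 22, [.N 11]⟩,
  ⟨47, 84, 4, 22, [.N 4, .N 7, .N 3, .M 46 [(0, [(563, 0), (1, 1)]), (46, [(517, 0)]), (92, [(467, 0)]), (138, [(421, 0)]), (184, [(375, 0)]), (230, [(329, 0)]), (276, [(280, 0)]), (322, [(234, 0)]), (368, [(188, 0)]), (414, [(140, 0)]), (460, [(93, 0)]), (506, [(47, 0)])]]⟩,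
  ⟨47, 85, 5, 18, [.N 9]⟩,
  ⟨48, 85, 3, 29, [.N 1, .N 11, .N 2]⟩,
  ⟨48, 86, 1, 87, [.N 6]⟩,
  ⟨49, 85, 5, 18, [.N 10]⟩,
  ⟨49, 86, 7, 13, []⟩,
  ⟨50, 86, 7, 13, [.N 1]⟩,
  ⟨50, 87, 6, 15, [.N 3, .N 4]⟩,
  ⟨51, 87, 5, 18, [.N 11]⟩,
  ⟨51, 88, 7, 13, [.N 1]⟩,
  ⟨52, 88, 5, 18, [.N 9, .N 3]⟩,
  ⟨52, 89, 5, 18, [.N 11]⟩]

theorem tab_12_1 : tabB 12 cert_12_1 38 15 46 = true := by decide +kernel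

/-- certificates for `m = 12`, `53 ≤ r < 102` -/
def cert_12_2 : List Cert := [
  ⟨53, 89, 7, 13, [.N 2]⟩,
  ⟨54, 90, 4, 23, [.N 11, .N 4]⟩,
  ⟨54, 91, 3, 31, [.N 13]⟩,
  ⟨56, 91, 6, 16, [.N 9]⟩,
  ⟨56, 92, 2, 47, [.N 3, .N 13, .N 2]⟩,
  ⟨58, 93, 2, 47, [.N 11, .N 1]⟩,
  ⟨58, 94, 4, 24, [.N 14, .N 1]⟩,
  ⟨60, 95, 2, 48, [.N 11, .N 2]⟩,
  ⟨60, 96, 4, 25, [.N 15]⟩,
  ⟨62, 96, 7, 14, [.N 6]⟩,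
  ⟨62, 97, 4, 25, [.N 15, .N 1]⟩,
  ⟨63, 98, 7, 15, [.N 7]⟩,
  ⟨64, 98, 7, 15, [.N 7]⟩,
  ⟨64, 99, 8, 13, []⟩,
  ⟨65, 99, 3, 34, [.N 14, .N 3]⟩,
  ⟨65, 100, 8, 13, []⟩,
  ⟨66, 99, 6, 17, [.N 13]⟩,
  ⟨66, 100, 8, 13, [.N 1]⟩,
  ⟨67, 100, 8, 13, [.N 2]⟩,
  ⟨67, 101, 5, 21, [.N 14, .N 3]⟩,
  ⟨68, 101, 8, 13, [.N 2]⟩,
  ⟨68, 102, 4, 26, [.N 17]⟩,
  ⟨69, 102, 3, 35, [.N 14, .N 4, .N 1]⟩,
  ⟨69, 103, 3, 35, [.N 16]⟩,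
  ⟨71, 103, 7, 15, [.N 10]⟩,
  ⟨71, 104, 5, 21, [.N 16, .N 2]⟩,
  ⟨73, 105, 7, 16, [.N 4, .M 64 [(0, [(778, 0), (79, 12), (7, 13)]), (64, [(714, 0), (72, 11), (7, 12)]), (128, [(650, 0), (65, 10), (7, 11)]), (192, [(586, 0), (58, 9), (7, 10)]), (256, [(522, 0), (54, 8), (4, 9)]), (320, [(458, 0), (48, 7)]), (384, [(394, 0), (41, 6)]), (448, [(330, 0), (34, 5)]), (512, [(266, 0), (27, 4)]), (576, [(202, 0), (20, 3)]), (640, [(138, 0), (13, 2)]), (704, [(74, 0), (6, 1)]), (768, [(10, 0)])], .N 1]⟩,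
  ⟨73, 106, 2, 54, [.N 13]⟩,
  ⟨75, 106, 7, 16, [.N 12]⟩,
  ⟨75, 107, 3, 36, [.N 17]⟩,
  ⟨77, 108, 4, 28, [.N 3, .N 18, .N 2]⟩,
  ⟨77, 109, 4, 28, [.N 19]⟩,
  ⟨79, 109, 8, 14, [.N 7]⟩,
  ⟨79, 110, 8, 14, [.N 7]⟩,
  ⟨81, 110, 7, 16, [.N 14]⟩,
  ⟨81, 111, 9, 13, []⟩,
  ⟨82, 112, 8, 15, [.N 9]⟩,
  ⟨83, 112, 8, 15, [.N 9]⟩,
  ⟨83, 113, 6, 19, [.N 19]⟩,
  ⟨84, 112, 8, 15, [.N 9]⟩,
  ⟨84, 113, 8, 15, [.N 4, .N 6]⟩,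
  ⟨85, 113, 8, 15, [.N 10]⟩,
  ⟨85, 114, 5, 23, [.N 21]⟩,
  ⟨86, 114, 3, 39, [.N 16, .N 7, .N 1]⟩,
  ⟨86, 115, 3, 39, [.N 19]⟩,
  ⟨87, 115, 9, 13, [.N 3]⟩,
  ⟨88, 115, 7, 17, [.N 17]⟩,
  ⟨88, 116, 5, 24, [.N 22]⟩,
  ⟨90, 116, 8, 15, [.N 12]⟩,
  ⟨90, 117, 4, 30, [.M 18 [(0, [(466, 0), (50, 25), (6, 28), (3, 29)]), (18, [(448, 0), (48, 24), (6, 27)]), (36, [(430, 0), (46, 23), (6, 26)]), (54, [(412, 0), (44, 22), (6, 25)]), (72, [(394, 0), (42, 21), (6, 24)]), (90, [(376, 0), (40, 20), (6, 23)]), (108, [(358, 0), (38, 19), (6, 22)]), (126, [(340, 0), (36, 18), (4, 20), (2, 21)]), (144, [(322, 0), (34, 17), (4, 19), (2, 20)]), (162, [(304, 0), (32, 16), (4, 18)]), (180, [(286, 0), (30, 15), (4, 17)]), (198, [(268, 0), (28, 14), (4, 16)]), (216, [(250, 0), (26, 13), (4, 15)]),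 (234, [(232, 0), (24, 12), (4, 14)]), (252, [(214, 0), (22, 11), (4, 13)]), (270, [(196, 0), (20, 10), (4, 12)]), (288, [(178, 0), (18, 9), (2, 10), (2, 11)]), (306, [(160, 0), (16, 8), (2, 9)]), (324, [(142, 0), (14, 7), (2, 8)]), (342, [(124, 0), (12, 6), (2, 7)]), (360, [(106, 0), (10, 5), (2, 6)]), (378, [(88, 0), (8, 4), (2, 5)]), (396, [(70, 0), (6, 3), (2, 4)]), (414, [(52, 0), (4, 2), (2, 3)]), (432, [(34, 0), (2, 1), (2, 2)]), (450, [(16, 0)])], .N 21, .N 3]⟩,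
  ⟨92, 118, 5, 24, [.N 22, .N 2]⟩,
  ⟨92, 119, 5, 24, [.N 23]⟩,
  ⟨94, 119, 9, 14, [.N 6]⟩,
  ⟨94, 120, 3, 41, [.N 20]⟩,
  ⟨96, 120, 9, 14, [.N 7]⟩,
  ⟨96, 121, 5, 25, [.N 24]⟩,
  ⟨98, 122, 5, 25, [.N 23, .N 3]⟩,
  ⟨98, 123, 7, 18, [.N 20]⟩,
  ⟨100, 123, 9, 14, [.N 9]⟩,
  ⟨100, 124, 10, 13, []⟩]

theorem tab_12_2 : tabB 12 cert_12_2 49 53 89 = true := by decide +kernel

/-- certificates for `m = 12`, `102 ≤ r < 154` -/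
def cert_12_3 : List Cert := [
  ⟨102, 124, 9, 14, [.N 10]⟩,
  ⟨102, 125, 10, 13, [.N 1]⟩,
  ⟨103, 126, 5, 26, [.N 26]⟩,
  ⟨104, 125, 9, 14, [.N 11]⟩,
  ⟨104, 126, 5, 26, [.N 26]⟩,
  ⟨105, 126, 9, 15, [.N 8, .N 4]⟩,
  ⟨105, 127, 4, 32, [.N 25]⟩,
  ⟨106, 127, 10, 13, [.N 3]⟩,
  ⟨106, 128, 3, 43, [.N 22]⟩,
  ⟨107, 127, 8, 16, [.N 19]⟩,
  ⟨107, 128, 3, 43, [.N 22]⟩,
  ⟨108, 128, 10, 13, [.N 4]⟩,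
  ⟨109, 128, 9, 15, [.N 13]⟩,
  ⟨109, 129, 9, 15, [.N 6, .N 8]⟩,
  ⟨111, 130, 9, 15, [.N 2, .N 5, .N 8]⟩,
  ⟨111, 131, 2, 66, [.N 17]⟩,
  ⟨113, 131, 3, 44, [.N 22, .N 3]⟩,
  ⟨113, 132, 3, 45, [.N 23]⟩,
  ⟨115, 132, 7, 19, [.N 24, .N 3]⟩,
  ⟨115, 133, 4, 34, [.N 27]⟩,
  ⟨117, 133, 10, 14, [.N 8]⟩,
  ⟨117, 134, 5, 27, [.N 29]⟩,
  ⟨119, 134, 10, 14, [.N 9]⟩,
  ⟨119, 135, 5, 28, [.N 29, .N 1]⟩,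
  ⟨121, 135, 9, 16, [.N 18]⟩,
  ⟨121, 136, 11, 13, []⟩,
  ⟨123, 137, 9, 16, [.N 6, .M 99 [(0, [(1296, 0), (66, 13)]), (99, [(1197, 0), (60, 11)]), (198, [(1098, 0), (60, 11)]), (297, [(999, 0), (54, 10)]), (396, [(900, 0), (48, 9)]), (495, [(801, 0), (42, 8)]), (594, [(702, 0), (36, 7)]), (693, [(603, 0), (30, 6)]), (792, [(504, 0), (24, 5)]), (891, [(405, 0), (18, 4)]), (990, [(306, 0), (12, 3)]), (1089, [(207, 0), (6, 2)]), (1188, [(108, 0)]), (1287, [(9, 0)])], .N 6, .N 3]⟩,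
  ⟨123, 138, 6, 24, [.N 30]⟩,
  ⟨125, 138, 9, 16, [.N 6, .M 102 [(0, [(1305, 0), (102, 12), (6, 13)]), (102, [(1203, 0), (93, 11), (9, 12)]), (204, [(1101, 0), (84, 10), (9, 11)]), (306, [(999, 0), (75, 9), (9, 10)]), (408, [(897, 0), (66, 8), (9, 9)]), (510, [(795, 0), (57, 7), (9, 8)]), (612, [(693, 0), (48, 6), (9, 7)]), (714, [(591, 0), (39, 5), (9, 6)]), (816, [(489, 0), (30, 4), (9, 5)]), (918, [(387, 0), (21, 3), (9, 4)]), (1020, [(285, 0), (12, 2)]), (1122, [(183, 0), (7, 1)]), (1224, [(81, 0)])], .N 7]⟩,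
  ⟨125, 139, 4, 35, [.N 29]⟩,
  ⟨127, 139, 11, 13, [.N 3]⟩,
  ⟨127, 140, 4, 36, [.N 29]⟩,
  ⟨128, 140, 3, 47, [.N 23, .N 7]⟩,
  ⟨129, 140, 11, 13, [.N 4]⟩,
  ⟨129, 141, 3, 48, [.N 25]⟩,
  ⟨130, 140, 10, 15, [.N 14]⟩,
  ⟨130, 141, 10, 15, [.N 5, .N 10]⟩,
  ⟨131, 141, 11, 13, [.N 5]⟩,
  ⟨132, 142, 2, 72, [.N 7, .N 30, .N 6]⟩,
  ⟨132, 143, 2, 72, [.N 19]⟩,
  ⟨134, 143, 5, 29, [.N 27, .M 113 [(0, [(1449, 0), (58, 12), (5, 13)]), (113, [(1336, 0), (53, 11), (5, 12)]), (226, [(1223, 0), (48, 10), (5, 11)]), (339, [(1110, 0), (43, 9), (5, 10)]), (452, [(997, 0), (38, 8), (5, 9)]), (565, [(884, 0), (33, 7), (5, 8)]), (678, [(771, 0), (28, 6), (5, 7)]), (791, [(658, 0), (23, 5), (5, 6)]), (904, [(545, 0), (20, 4), (3, 5)]), (1017, [(432, 0), (15, 3)]), (1130, [(319, 0), (10, 2)]),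 (1243, [(206, 0), (5, 1)]), (1356, [(93, 0)])], .N 8]⟩,
  ⟨134, 144, 4, 37, [.N 30]⟩,
  ⟨136, 144, 10, 15, [.N 2, .M 110 [(0, [(1433, 0), (76, 13)]), (110, [(1323, 0), (70, 12)]), (220, [(1213, 0), (64, 11)]), (330, [(1103, 0), (58, 10)]), (440, [(993, 0), (52, 9)]), (550, [(883, 0), (46, 8)]), (660, [(773, 0), (41, 7)]), (770, [(663, 0), (36, 6)]), (880, [(553, 0), (30, 5)]), (990, [(443, 0), (24, 4)]), (1100, [(333, 0), (18, 3)]), (1210, [(223, 0), (12, 2)]), (1320, [(113, 0), (6, 1)]), (1430, [(3, 0)])], .N 10]⟩,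
  ⟨136, 145, 3, 49, [.N 26]⟩,
  ⟨138, 145, 4, 37, [.N 30, .N 3]⟩,
  ⟨138, 146, 4, 37, [.N 31]⟩,
  ⟨140, 146, 6, 25, [.N 33, .N 4]⟩,
  ⟨140, 147, 5, 30, [.N 34]⟩,
  ⟨142, 147, 6, 25, [.N 34, .N 3]⟩,
  ⟨142, 148, 8, 19, [.N 31]⟩,
  ⟨144, 148, 11, 14, [.N 11]⟩,
  ⟨144, 149, 12, 13, []⟩,
  ⟨146, 149, 11, 14, [.N 12]⟩,
  ⟨146, 150, 8, 19, [.N 33]⟩,
  ⟨148, 150, 11, 14, [.N 13]⟩,
  ⟨148, 151, 5, 31, [.N 36]⟩,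
  ⟨150, 151, 12, 13, [.N 3]⟩,
  ⟨150, 152, 4, 39, [.N 33]⟩,
  ⟨152, 152, 12, 13, [.N 4]⟩,
  ⟨152, 153, 3, 52, [.N 28]⟩]

theorem tab_12_3 : tabB 12 cert_12_3 52 102 124 = true := by decide +kernel

/-- certificates for `m = 12`, `154 ≤ r < 212` -/
def cert_12_4 : List Cert := [
  ⟨154, 153, 12, 13, [.N 5]⟩,
  ⟨154, 154, 5, 31, [.N 37]⟩,
  ⟨155, 154, 11, 15, [.N 5, .M 132 [(0, [(1716, 0), (12, 13)]), (132, [(1584, 0), (11, 12)]), (264, [(1452, 0), (10, 11)]), (396, [(1320, 0), (9, 10)]), (528, [(1188, 0), (8, 9)]), (660, [(1056, 0), (7, 8)]), (792, [(924, 0), (6, 7)]), (924, [(792, 0), (5, 6)]), (1056, [(660, 0), (4, 5)]), (1188, [(528, 0), (3, 4)]), (1320, [(396, 0), (2, 3)]), (1452, [(264, 0), (1, 2)]), (1584, [(132, 0)])], .N 11]⟩,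
  ⟨155, 155, 2, 78, [.N 21]⟩,
  ⟨156, 154, 12, 13, [.N 6]⟩,
  ⟨157, 155, 11, 15, [.N 4, .M 132 [(0, [(1716, 0), (36, 13)]), (132, [(1584, 0), (33, 12)]), (264, [(1452, 0), (30, 11)]), (396, [(1320, 0), (27, 10)]), (528, [(1188, 0), (24, 9)]), (660, [(1056, 0), (21, 8)]), (792, [(924, 0), (18, 7)]), (924, [(792, 0), (15, 6)]), (1056, [(660, 0), (12, 5)]), (1188, [(528, 0), (9, 4)]), (1320, [(396, 0), (6, 3)]), (1452, [(264, 0), (3, 2)]), (1584, [(132, 0)])], .N 11]⟩,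
  ⟨157, 156, 2, 79, [.N 21]⟩,
  ⟨159, 155, 9, 18, [.N 33]⟩,
  ⟨159, 156, 11, 15, [.N 4, .M 133 [(0, [(1728, 0), (44, 12), (4, 13)]), (133, [(1595, 0), (40, 11), (4, 12)]), (266, [(1462, 0), (36, 10), (4, 11)]), (399, [(1329, 0), (32, 9), (4, 10)]), (532, [(1196, 0), (28, 8), (4, 9)]), (665, [(1063, 0), (24, 7), (4, 8)]), (798, [(930, 0), (20, 6), (4, 7)]), (931, [(797, 0), (16, 5), (4, 6)]), (1064, [(664, 0), (12, 4), (4, 5)]), (1197, [(531, 0), (8, 3), (4, 4)]), (1330, [(398, 0), (4, 2), (4, 3)]), (1463, [(265, 0), (2, 1), (2, 2)]), (1596, [(132, 0)])], .N 11]⟩,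
  ⟨161, 156, 11, 15, [.N 19]⟩,
  ⟨161, 157, 11, 15, [.M 120 [(0, [(1683, 0), (7, 14)]), (120, [(1562, 0)]), (240, [(1441, 0)]), (360, [(1320, 0)]), (480, [(1199, 0)]), (600, [(1078, 0)]), (720, [(957, 0)]), (840, [(836, 0)]), (960, [(715, 0)]), (1080, [(594, 0)]), (1200, [(473, 0)]), (1320, [(352, 0)]), (1440, [(231, 0)]), (1560, [(110, 0)])], .M 130 [(0, [(1690, 0), (110, 13)]), (130, [(1560, 0), (101, 12)]), (260, [(1430, 0), (92, 11)]), (390, [(1300, 0), (83, 10)]), (520, [(1170, 0), (74, 9)]), (650, [(1040, 0), (65, 8)]), (780, [(910, 0), (56, 7)]), (910, [(780, 0), (47, 6)]), (1040, [(650, 0), (38, 5)]), (1170, [(520, 0), (29, 4)]), (1300, [(390, 0), (20, 3)]), (1430, [(260, 0), (11, 2)]), (1560, [(130, 0), (2, 1)])], .N 11]⟩,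
  ⟨163, 157, 10, 16, [.N 28]⟩,
  ⟨163, 158, 11, 15, [.N 5, .M 136 [(0, [(1764, 0), (55, 12), (5, 13)]), (136, [(1628, 0), (50, 11), (5, 12)]), (272, [(1492, 0), (45, 10), (5, 11)]), (408, [(1356, 0), (40, 9), (5, 10)]), (544, [(1220, 0), (35, 8), (5, 9)]), (680, [(1084, 0), (30, 7), (5, 8)]), (816, [(948, 0), (25, 6), (5, 7)]), (952, [(812, 0), (20, 5), (5, 6)]), (1088, [(676, 0), (15, 4), (5, 5)]), (1224, [(540, 0), (10, 2), (5, 4)]), (1360, [(404, 0), (10, 2)]), (1496, [(268, 0), (5, 1), (5, 2)]), (1632, [(132, 0)])], .N 11]⟩,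
  ⟨165, 158, 10, 16, [.N 29]⟩,
  ⟨165, 159, 11, 15, [.M 122 [(0, [(1705, 0), (13, 13), (11, 14)]), (122, [(1583, 0), (12, 12), (1, 13)]), (244, [(1461, 0), (11, 11), (1, 12)]), (366, [(1339, 0), (10, 10), (1, 11)]), (488, [(1217, 0), (9, 9), (1, 10)]), (610, [(1095, 0), (8, 8), (1, 9)]), (732, [(973, 0), (7, 7), (1, 8)]), (854, [(851, 0), (6, 6), (1, 7)]), (976, [(729, 0), (5, 5), (1, 6)]), (1098, [(607, 0), (4, 4), (1, 5)]), (1220, [(485, 0), (3, 3), (1, 4)]), (1342, [(363, 0), (2, 2)]), (1464, [(241, 0), (1, 1)]), (1586, [(119, 0)])], .M 133 [(0, [(1729, 0), (119, 13)]), (133, [(1596, 0), (109, 12)]), (266, [(1463, 0), (99, 11)]), (399, [(1330, 0), (90, 10)]), (532, [(1197, 0), (80, 9)]), (665, [(1064, 0), (70, 8)]), (798, [(931, 0), (60, 7)]), (931, [(798, 0), (50, 6)]),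 (1064, [(665, 0), (40, 5)]), (1197, [(532, 0), (30, 4)]), (1330, [(399, 0), (20, 3)]), (1463, [(266, 0), (10, 2)]), (1596, [(133, 0)])], .N 11]⟩,
  ⟨167, 159, 12, 14, [.N 11]⟩,
  ⟨167, 160, 5, 33, [.N 38, .N 4]⟩,
  ⟨169, 160, 11, 15, [.N 22]⟩,
  ⟨169, 161, 13, 13, []⟩,
  ⟨171, 161, 11, 15, [.N 23]⟩,
  ⟨171, 162, 13, 13, [.N 1]⟩,
  ⟨173, 162, 11, 15, [.N 24]⟩,
  ⟨173, 163, 13, 13, [.N 2]⟩,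
  ⟨175, 163, 12, 14, [.N 15]⟩,
  ⟨175, 164, 13, 13, [.N 3]⟩,
  ⟨177, 164, 12, 14, [.N 16]⟩,
  ⟨177, 165, 7, 24, [.N 44]⟩,
  ⟨179, 165, 13, 13, [.N 5]⟩,
  ⟨179, 166, 5, 34, [.N 42]⟩,
  ⟨181, 166, 13, 13, [.N 6]⟩,
  ⟨181, 167, 7, 24, [.N 45]⟩,
  ⟨182, 168, 2, 85, [.N 23]⟩,
  ⟨183, 167, 13, 13, [.N 7]⟩,
  ⟨184, 168, 12, 15, [.N 7, .N 13]⟩,
  ⟨186, 168, 12, 15, [.N 20]⟩,
  ⟨186, 169, 7, 25, [.N 46, .N 1]⟩,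
  ⟨188, 169, 12, 15, [.N 21]⟩,
  ⟨188, 170, 7, 25, [.N 47]⟩,
  ⟨190, 170, 12, 15, [.N 22]⟩,
  ⟨190, 171, 5, 35, [.N 44]⟩,
  ⟨192, 171, 13, 14, [.N 11]⟩,
  ⟨192, 172, 6, 29, [.N 47]⟩,
  ⟨194, 172, 13, 14, [.N 12]⟩,
  ⟨194, 173, 13, 14, [.N 12]⟩,
  ⟨196, 173, 13, 14, [.N 12, .N 1]⟩,
  ⟨196, 174, 14, 13, []⟩,
  ⟨198, 174, 7, 25, [.N 47, .N 5]⟩,
  ⟨198, 175, 13, 14, [.N 14]⟩,
  ⟨200, 175, 7, 26, [.N 48, .N 4]⟩,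
  ⟨200, 176, 5, 36, [.N 46]⟩,
  ⟨202, 176, 2, 89, [.N 3, .N 36, .N 6]⟩,
  ⟨202, 177, 4, 45, [.N 41]⟩,
  ⟨204, 176, 13, 14, [.N 17]⟩,
  ⟨204, 177, 14, 13, [.N 4]⟩,
  ⟨206, 177, 13, 14, [.N 18]⟩,
  ⟨206, 178, 14, 13, [.N 5]⟩,
  ⟨208, 178, 14, 13, [.N 6]⟩,
  ⟨208, 179, 5, 36, [.N 47]⟩,
  ⟨210, 179, 14, 13, [.N 7]⟩,
  ⟨210, 180, 2, 91, [.N 25]⟩]

theorem tab_12_4 : tabB 12 cert_12_4 58 154 153 = true := by decide +kernel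

/-- certificates for `m = 12`, `212 ≤ r < 289` -/
def cert_12_5 : List Cert := [
  ⟨212, 180, 14, 13, [.N 8]⟩,
  ⟨215, 182, 3, 61, [.N 35]⟩,
  ⟨217, 182, 14, 14, [.N 10]⟩,
  ⟨217, 183, 4, 46, [.N 43]⟩,
  ⟨219, 183, 5, 37, [.N 47, .N 6]⟩,
  ⟨219, 184, 4, 47, [.N 43]⟩,
  ⟨221, 184, 5, 37, [.N 47, .N 7]⟩,
  ⟨221, 185, 5, 38, [.N 49]⟩,
  ⟨223, 185, 13, 15, [.N 1, .N 10, .N 16]⟩,
  ⟨223, 186, 1, 187, [.N 14]⟩,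
  ⟨225, 185, 13, 15, [.N 26]⟩,
  ⟨225, 186, 15, 13, []⟩,
  ⟨227, 186, 14, 14, [.N 15]⟩,
  ⟨227, 187, 15, 13, [.N 1]⟩,
  ⟨229, 187, 14, 14, [.N 15, .N 1]⟩,
  ⟨229, 188, 14, 14, [.N 16]⟩,
  ⟨231, 188, 14, 14, [.N 12, .N 5]⟩,
  ⟨231, 189, 5, 38, [.N 51]⟩,
  ⟨233, 189, 5, 38, [.N 49, .N 7]⟩,
  ⟨233, 190, 3, 64, [.N 37]⟩,
  ⟨235, 189, 14, 14, [.N 19]⟩,
  ⟨235, 190, 15, 13, [.N 5]⟩,
  ⟨237, 190, 14, 14, [.N 20]⟩,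
  ⟨237, 191, 5, 39, [.N 52]⟩,
  ⟨239, 191, 15, 13, [.N 7]⟩,
  ⟨239, 192, 15, 13, [.N 7]⟩,
  ⟨241, 192, 15, 13, [.N 8]⟩,
  ⟨241, 193, 2, 97, [.N 27]⟩,
  ⟨243, 193, 15, 13, [.N 9]⟩,
  ⟨248, 196, 4, 50, [.N 47]⟩,
  ⟨250, 196, 14, 15, [.N 9, .N 18]⟩,
  ⟨252, 196, 14, 15, [.N 27]⟩,
  ⟨252, 197, 4, 50, [.N 47, .N 2]⟩,
  ⟨254, 197, 15, 14, [.N 14]⟩,
  ⟨254, 198, 15, 14, [.N 14]⟩,
  ⟨256, 198, 15, 14, [.N 15]⟩,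
  ⟨256, 199, 16, 13, []⟩,
  ⟨258, 199, 4, 50, [.N 46, .N 9]⟩,
  ⟨258, 200, 16, 13, []⟩,
  ⟨260, 199, 14, 15, [.N 30]⟩,
  ⟨260, 200, 16, 13, [.N 2]⟩,
  ⟨262, 200, 14, 15, [.N 31]⟩,
  ⟨262, 201, 5, 41, [.N 56]⟩,
  ⟨264, 201, 15, 14, [.N 15, .N 4]⟩,
  ⟨264, 202, 4, 51, [.N 49]⟩,
  ⟨266, 202, 5, 41, [.N 54, .N 8]⟩,
  ⟨266, 203, 3, 68, [.N 40]⟩,
  ⟨268, 202, 15, 14, [.N 20]⟩,
  ⟨268, 203, 16, 13, [.N 6]⟩,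
  ⟨270, 203, 16, 13, [.N 7]⟩,
  ⟨270, 204, 16, 13, [.N 7]⟩,
  ⟨272, 204, 16, 13, [.N 8]⟩,
  ⟨272, 205, 2, 103, [.N 29]⟩,
  ⟨274, 205, 16, 13, [.N 9]⟩,
  ⟨274, 206, 2, 104, [.N 29]⟩,
  ⟨276, 206, 16, 13, [.N 10]⟩,
  ⟨278, 206, 15, 14, [.N 25]⟩,
  ⟨285, 210, 15, 15, [.N 30]⟩,
  ⟨287, 210, 3, 71, [.N 40, .N 10]⟩,
  ⟨287, 211, 1, 212, [.N 16]⟩]

theorem tab_12_5 : tabB 12 cert_12_5 77 212 180 = true := by decide +kernel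

def certx_12_10 : List Cert := [
  ⟨10, 39, 2, 20, [.N 1, .N 1, .N 1]⟩]

theorem tabx_12_10 : certB 10 12 39 certx_12_10 = true := by decide +kernel

def certx_12_14 : List Cert := [
  ⟨14, 46, 3, 16, [.N 2]⟩]

theorem tabx_12_14 : certB 14 12 46 certx_12_14 = true := by decide +kernel


theorem small_12 [Infinite K] (r : ℕ) (hr : 10 ≤ r) (h10 : r ≠ 10) (h14 : r ≠ 14) (hlt : r < 225) (d : ℕ) : Case K r 12 d := by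
  by_cases c0 : r < 14
  · exact case_of_tabB 12 _ 3 11 39 tab_12_0 r (by omega) (by omega) d
  by_cases c1 : r < 53
  · exact case_of_tabB 12 _ 38 15 46 tab_12_1 r (by omega) (by omega) d
  by_cases c2 : r < 102
  · exact case_of_tabB 12 _ 49 53 89 tab_12_2 r (by omega) (by omega) d
  by_cases c3 : r < 154
  · exact case_of_tabB 12 _ 52 102 124 tab_12_3 r (by omega) (by omega) d
  by_cases c4 : r < 212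
  · exact case_of_tabB 12 _ 58 154 153 tab_12_4 r (by omega) (by omega) d
  exact case_of_tabB 12 _ 77 212 180 tab_12_5 r (by omega) (by omega) d

end Pool.Agent.Helper42.SM
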