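import Pool.Agent.Helper22.E6.Crit

set_option autoImplicit false

/-! # Certificates for m = 13, r < (m + 3) ^ 2 (helper22, cut by helper42), MP_e6aa12_ag -/

namespace Pool.Agent.Helper42.SM

open Pool.Agent.Helper22.E6 Pool.Agent.Helper41.Fat

variable {K : Type*} [Field K]


/-- certificates for `m = 13`, `10 ≤ r < 12` -/
def cert_13_0 : List Cert := [
  ⟨10, 41, 2, 21, [.N 1, .M 7 [(0, [(103, 0), (11, 14), (1, 16)]), (7, [(96, 0), (10, 13), (1, 14)]), (14, [(89, 0), (9, 12), (2, 14)]), (21, [(82, 0), (8, 10), (1, 12), (1, 13)]), (28, [(75, 0), (8, 10)]), (35, [(68, 0), (7, 9), (1, 10)]), (42, [(61, 0), (6, 8), (1, 9)]), (49, [(54, 0), (5, 6), (1, 8)]), (56, [(47, 0), (5, 6)]), (63, [(40, 0), (4, 5), (1, 6)]), (70, [(33, 0), (3, 4), (1, 5)]), (77, [(26, 0), (2,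 2), (1, 4)]), (84, [(19, 0), (2, 2)]), (91, [(12, 0), (1, 1)]), (98, [(5, 0)])], .N 1]⟩,
  ⟨10, 42, 2, 22, [.N 1, .M 8 [(0, [(106, 0), (22, 13), (6, 16)]), (8, [(98, 0), (21, 12), (3, 14), (2, 15)]), (16, [(90, 0), (19, 11), (3, 13), (2, 14)]), (24, [(82, 0), (17, 10), (4, 12)]), (32, [(74, 0), (15, 9), (4, 11)]), (40, [(66, 0), (14, 8), (3, 10)]), (48, [(58, 0), (12, 7), (2, 8), (1, 9)]), (56, [(50, 0), (10, 6), (2, 7)]), (64, [(42, 0), (8, 5), (2, 6)]), (72, [(34, 0), (7, 4), (1, 5)]), (80, [(26, 0), (5, 3)]), (88, [(18, 0), (3, 2)]), (96, [(10, 0), (1, 1)]), (104, [(2, 0)])]]⟩]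

theorem tab_13_0 : tabB 13 cert_13_0 2 10 41 = true := by decide +kernel

/-- certificates for `m = 13`, `13 ≤ r < 14` -/
def cert_13_1 : List Cert := [
  ⟨13, 47, 3, 16, [.N 1, .M 12 [(0, [(156, 0), (12, 13), (1, 14)]), (12, [(144, 0), (11, 12)]), (24, [(132, 0), (10, 11)]), (36, [(120, 0), (9, 10)]), (48, [(108, 0), (8, 9)]), (60, [(96, 0), (7, 8)]), (72, [(84, 0), (6, 7)]), (84, [(72, 0), (5, 5)]), (96, [(60, 0), (5, 5)]), (108, [(48, 0), (4, 4)]), (120, [(36, 0), (3, 3)]), (132, [(24, 0), (2, 2)]), (144, [(12, 0), (1, 1)])]]⟩,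
  ⟨13, 48, 3, 17, [.N 2]⟩]

theorem tab_13_1 : tabB 13 cert_13_1 1 13 47 = true := by decide +kernel

/-- certificates for `m = 13`, `15 ≤ r < 52` -/
def cert_13_2 : List Cert := [
  ⟨15, 50, 3, 17, [.N 2, .N 1]⟩,
  ⟨15, 51, 3, 18, [.N 1, .N 1, .N 1]⟩,
  ⟨16, 52, 3, 18, [.N 3]⟩,
  ⟨16, 53, 4, 14, []⟩,
  ⟨17, 54, 2, 28, [.N 1, .N 2, .N 1, .N 1, .N 1]⟩,
  ⟨17, 55, 3, 19, [.N 2, .N 2]⟩,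
  ⟨19, 57, 2, 29, [.N 3, .N 3]⟩,
  ⟨19, 58, 3, 20, [.N 4]⟩,
  ⟨21, 60, 3, 21, [.N 4, .N 1]⟩,
  ⟨21, 61, 3, 21, [.N 4, .N 1]⟩,
  ⟨22, 61, 4, 16, [.N 2, .N 1]⟩,
  ⟨22, 62, 4, 16, [.N 1, .N 2]⟩,
  ⟨23, 63, 3, 22, [.N 4, .N 2]⟩,
  ⟨23, 64, 4, 17, [.N 3]⟩,
  ⟨24, 64, 3, 22, [.N 5, .N 1]⟩,
  ⟨24, 65, 3, 22, [.N 5, .N 1]⟩,
  ⟨25, 65, 3, 22, [.N 6]⟩,
  ⟨25, 66, 5, 14, []⟩,
  ⟨26, 67, 3, 23, [.N 5, .N 2]⟩,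
  ⟨26, 68, 4, 18, [.N 3, .N 2]⟩,
  ⟨27, 68, 4, 18, [.N 5]⟩,
  ⟨28, 69, 3, 24, [.N 7]⟩,
  ⟨28, 70, 3, 24, [.N 5, .N 2, .N 1]⟩,
  ⟨30, 72, 4, 19, [.N 6]⟩,
  ⟨30, 73, 2, 37, [.N 7]⟩,
  ⟨32, 74, 2, 38, [.N 7, .N 1]⟩,
  ⟨32, 75, 3, 26, [.N 8]⟩,
  ⟨33, 76, 5, 16, [.N 1, .M 28 [(0, [(390, 0), (12, 13), (1, 14)]), (28, [(362, 0), (11, 12), (1, 13)]), (56, [(334, 0), (10, 11), (1, 12)]), (84, [(306, 0), (9, 10), (1, 11)]), (112, [(278, 0), (8, 9), (1, 10)]), (140, [(250, 0), (7, 8), (1, 9)]), (168, [(222, 0), (6, 7), (1, 8)]), (196, [(194, 0), (5, 6), (1, 7)]), (224, [(166, 0), (4, 5), (1, 6)]), (252, [(138, 0), (3, 4), (1, 5)]), (280, [(110, 0), (2, 2), (1, 4)]), (308, [(82, 0), (2, 2)]), (336, [(54, 0), (1, 1)]), (364, [(26, 0)])], .N 2]⟩,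
  ⟨33, 77, 3, 26, [.N 8]⟩,
  ⟨34, 77, 3, 26, [.N 8, .N 1]⟩,
  ⟨34, 78, 5, 16, [.N 4]⟩,
  ⟨35, 78, 4, 20, [.N 7, .N 1]⟩,
  ⟨35, 79, 5, 16, [.N 5]⟩,
  ⟨36, 79, 5, 16, [.N 5]⟩,
  ⟨36, 80, 6, 14, []⟩,
  ⟨37, 80, 4, 21, [.N 7, .N 2]⟩,
  ⟨37, 81, 4, 21, [.N 7, .N 2]⟩,
  ⟨38, 81, 5, 17, [.N 6]⟩,
  ⟨38, 82, 6, 14, [.N 1]⟩,
  ⟨39, 82, 4, 21, [.N 7, .N 3]⟩,
  ⟨39, 83, 3, 28, [.N 3, .N 9]⟩,
  ⟨41, 84, 5, 17, [.N 7]⟩,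
  ⟨41, 85, 5, 18, [.N 3, .M 35 [(0, [(469, 0), (48, 13), (4, 14)]), (35, [(434, 0), (44, 12), (4, 13)]), (70, [(399, 0), (40, 11), (4, 12)]), (105, [(364, 0), (36, 10), (4, 11)]), (140, [(329, 0), (32, 9), (4, 10)]), (175, [(294, 0), (28, 8), (4, 9)]), (210, [(259, 0), (24, 7), (4, 8)]), (245, [(224, 0), (22, 6), (2, 7)]), (280, [(189, 0), (19, 5)]), (315, [(154, 0), (15, 4)]), (350, [(119, 0), (11, 3)]), (385, [(84, 0), (7, 2)]), (420, [(49, 0), (3, 1)]), (455, [(14, 0)])], .N 1]⟩,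
  ⟨43, 86, 5, 18, [.N 8]⟩,
  ⟨43, 87, 5, 18, [.N 2, .M 31 [(0, [(464, 0), (26, 14)]), (31, [(433, 0), (24, 13), (2, 14)]), (62, [(402, 0), (22, 12), (2, 13)]), (93, [(371, 0), (20, 11), (2, 12)]), (124, [(340, 0), (18, 10), (2, 11)]), (155, [(309, 0), (16, 9), (2, 10)]), (186, [(278, 0), (14, 8), (2, 9)]), (217, [(247, 0), (12, 7), (2, 8)]), (248, [(216, 0), (10, 6), (2, 7)]), (279, [(185, 0), (8, 5), (2, 6)]), (310, [(154, 0), (6, 4), (2, 5)]), (341, [(123, 0), (4, 2), (2, 4)]), (372, [(92, 0), (4, 2)]), (403, [(61, 0), (2, 1), (2, 2)]), (434, [(30, 0)])], .M 35 [(0, [(490, 0), (30, 13)]), (35, [(455, 0), (30, 13)]), (70, [(420, 0), (26, 12)]), (105, [(385, 0), (24, 11)]), (140, [(350, 0), (22, 10)]), (175, [(315, 0), (20, 9)]), (210, [(280, 0), (18, 8)]), (245,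 [(245, 0), (16, 7)]), (280, [(210, 0), (14, 6)]), (315, [(175, 0), (12, 5)]), (350, [(140, 0), (10, 4)]), (385, [(105, 0), (8, 3)]), (420, [(70, 0), (6, 2)]), (455, [(35, 0), (4, 1)])], .N 3]⟩,
  ⟨45, 89, 5, 18, [.N 2, .N 1, .M 34 [(0, [(490, 0), (39, 14), (3, 15)]), (34, [(456, 0), (36, 13), (3, 14)]), (68, [(422, 0), (33, 12), (3, 13)]), (102, [(388, 0), (30, 11), (3, 12)]), (136, [(354, 0), (27, 10), (3, 11)]), (170, [(320, 0), (24, 9), (3, 10)]), (204, [(286, 0), (21, 8), (3, 9)]), (238, [(252, 0), (20, 7), (1, 8)]), (272, [(218, 0), (18, 6)]), (306, [(184, 0), (15, 5)]), (340, [(150, 0), (12, 4)]), (374, [(116, 0), (9, 3)]), (408, [(82, 0), (6, 2)]), (442, [(48, 0), (3, 1)]), (476, [(14, 0)])], .N 1, .N 3]⟩,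
  ⟨45, 90, 3, 31, [.N 11]⟩,
  ⟨46, 90, 6, 16, [.N 1, .M 39 [(0, [(546, 0), (13, 14)]), (39, [(507, 0), (12, 13)]), (78, [(468, 0), (11, 12)]), (117, [(429, 0), (10, 11)]), (156, [(390, 0), (9, 10)]), (195, [(351, 0), (8, 9)]), (234, [(312, 0), (7, 8)]), (273, [(273, 0), (6, 7)]), (312, [(234, 0), (5, 6)]), (351, [(195, 0), (4, 5)]), (390, [(156, 0), (3, 4)]), (429, [(117, 0), (2, 3)]), (468, [(78, 0), (1, 2)]), (507, [(39, 0)])], .N 3]⟩,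
  ⟨46, 91, 4, 23, [.N 11]⟩,
  ⟨47, 90, 6, 16, [.N 5]⟩,
  ⟨47, 91, 5, 19, [.N 1, .N 2, .M 34 [(0, [(502, 0), (39, 14), (3, 15), (3, 16)]), (34, [(468, 0), (36, 13), (3, 14)]), (68, [(434, 0), (33, 12), (3, 13)]), (102, [(400, 0), (30, 11), (3, 12)]), (136, [(366, 0), (27, 10), (3, 11)]), (170, [(332, 0), (24, 9), (3, 10)]), (204, [(298, 0), (21, 8), (3, 9)]), (238, [(264, 0), (18, 7), (3, 8)]), (272, [(230, 0), (15, 6), (3, 7)]), (306, [(196, 0), (12, 5), (3, 6)]), (340, [(162, 0), (9, 4), (3, 5)]), (374, [(128, 0), (8, 3), (1, 4)]), (408, [(94, 0), (6, 2)]), (442, [(60, 0), (3, 1)]), (476, [(26, 0)])], .M 39 [(0, [(547, 0), (25, 14)]), (39, [(507, 0), (24, 13)]), (78, [(468, 0), (22, 12)]), (117, [(429, 0), (20, 11)]), (156, [(390, 0), (18, 10)]), (195, [(351, 0),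 (16, 9)]), (234, [(312, 0), (14, 8)]), (273, [(273, 0), (12, 7)]), (312, [(234, 0), (10, 6)]), (351, [(195, 0), (8, 5)]), (390, [(156, 0), (6, 4)]), (429, [(117, 0), (4, 3)]), (468, [(78, 0), (2, 2)]), (507, [(39, 0)])], .N 3]⟩,
  ⟨48, 91, 3, 31, [.N 12]⟩,
  ⟨48, 92, 3, 31, [.N 1, .N 11, .N 2]⟩,
  ⟨49, 92, 5, 19, [.N 10]⟩,
  ⟨49, 93, 7, 14, []⟩,
  ⟨50, 93, 7, 14, [.N 1]⟩,
  ⟨50, 94, 2, 48, [.N 3, .N 12, .N 1]⟩,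
  ⟨51, 94, 5, 19, [.N 11]⟩,
  ⟨51, 95, 7, 14, [.N 1]⟩]

theorem tab_13_2 : tabB 13 cert_13_2 37 15 50 = true := by decide +kernel

/-- certificates for `m = 13`, `52 ≤ r < 96` -/
def cert_13_3 : List Cert := [
  ⟨52, 95, 6, 16, [.N 5, .N 3]⟩,
  ⟨52, 96, 3, 33, [.N 2, .N 13]⟩,
  ⟨53, 96, 6, 17, [.N 8]⟩,
  ⟨54, 97, 5, 20, [.N 12]⟩,
  ⟨54, 98, 3, 33, [.N 13]⟩,
  ⟨56, 99, 3, 34, [.N 13, .N 1]⟩,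
  ⟨56, 100, 2, 51, [.N 11]⟩,
  ⟨58, 101, 4, 26, [.N 14, .N 1]⟩,
  ⟨58, 102, 3, 35, [.N 14]⟩,
  ⟨60, 103, 2, 52, [.N 3, .M 13 [(0, [(360, 0), (20, 27), (1, 28)]), (13, [(347, 0), (19, 26), (2, 28)]), (26, [(334, 0), (18, 24), (2, 27)]), (39, [(321, 0), (18, 24), (1, 26)]), (52, [(308, 0), (17, 23), (1, 24)]), (65, [(295, 0), (16, 22), (1, 23), (1, 24)]), (78, [(282, 0), (15, 20), (1, 22)]), (91, [(269, 0), (15, 20)]), (104, [(256, 0), (14, 19), (1, 20)]), (117, [(243, 0), (13, 18), (1, 19)]), (130, [(230, 0), (12, 16), (1, 18)]), (143, [(217, 0), (12, 16)]), (156, [(204, 0), (11, 15), (1, 16)]), (169, [(191, 0), (10, 14), (1, 15)]), (182, [(178, 0), (9, 12), (1, 14)]), (195, [(165, 0), (9, 12)]), (208, [(152, 0), (8, 11), (1, 12)]), (221, [(139, 0), (7, 10), (1, 11)]),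 (234, [(126, 0), (6, 8), (1, 10)]), (247, [(113, 0), (6, 8)]), (260, [(100, 0), (5, 7), (1, 8)]), (273, [(87, 0), (4, 6), (1, 7)]), (286, [(74, 0), (3, 4)]), (299, [(61, 0), (3, 4)]), (312, [(48, 0), (2, 3)]), (325, [(35, 0), (1, 2)]), (338, [(22, 0)]), (351, [(9, 0)])], .N 14, .N 2]⟩,
  ⟨60, 104, 3, 35, [.N 14]⟩,
  ⟨62, 104, 7, 15, [.N 6]⟩,
  ⟨62, 105, 4, 27, [.N 15, .N 1]⟩,
  ⟨63, 105, 7, 16, [.N 6, .N 1]⟩,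
  ⟨63, 106, 7, 16, [.N 7]⟩,
  ⟨64, 106, 7, 16, [.N 7]⟩,
  ⟨64, 107, 8, 14, []⟩,
  ⟨65, 107, 3, 36, [.N 14, .N 3]⟩,
  ⟨65, 108, 4, 28, [.N 16]⟩,
  ⟨66, 108, 3, 37, [.N 2, .N 1, .N 15, .N 3]⟩,
  ⟨66, 109, 6, 19, [.N 13]⟩,
  ⟨67, 108, 8, 14, [.N 2]⟩,
  ⟨67, 109, 7, 16, [.N 3, .M 57 [(0, [(794, 0), (23, 13), (2, 14)]), (57, [(737, 0), (21, 12), (2, 13)]), (114, [(680, 0), (19, 11), (2, 12)]), (171, [(623, 0), (17, 10), (2, 11)]), (228, [(566, 0), (15, 9), (2, 10)]), (285, [(509, 0), (13, 8), (2, 9)]), (342, [(452, 0), (11, 7), (2, 8)]), (399, [(395, 0), (9, 6), (2, 7)]), (456, [(338, 0), (7, 4), (2, 6)]), (513, [(281, 0), (7, 4)]), (570, [(224, 0), (6, 3), (1, 4)]), (627, [(167, 0), (4, 2), (2, 3)]), (684, [(110, 0), (2, 1)]), (741, [(53, 0)])], .N 4]⟩,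
  ⟨68, 109, 7, 16, [.N 9]⟩,
  ⟨68, 110, 4, 28, [.N 17]⟩,
  ⟨69, 110, 5, 23, [.N 16, .N 1]⟩,
  ⟨69, 111, 3, 38, [.N 16]⟩,
  ⟨71, 112, 2, 57, [.N 5, .N 16, .N 3]⟩,
  ⟨71, 113, 5, 23, [.N 17]⟩,
  ⟨73, 113, 7, 17, [.N 11]⟩,
  ⟨73, 114, 7, 17, [.N 5, .M 66 [(0, [(864, 0), (81, 13), (7, 14)]), (66, [(798, 0), (74, 12), (7, 13)]), (132, [(732, 0), (67, 11), (7, 12)]), (198, [(666, 0), (60, 10), (7, 11)]), (264, [(600, 0), (57, 9)]), (330, [(534, 0), (51, 8)]), (396, [(468, 0), (44, 7)]), (462, [(402, 0), (37, 6)]), (528, [(336, 0), (30, 5)]), (594, [(270, 0), (23, 4)]), (660, [(204, 0), (16, 3)]), (726, [(138, 0), (9, 2)]), (792, [(72, 0), (3, 1)]), (858, [(6, 0)])]]⟩,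
  ⟨75, 115, 3, 39, [.N 16, .N 3]⟩,
  ⟨75, 116, 3, 39, [.N 17]⟩,
  ⟨77, 116, 6, 20, [.N 17]⟩,
  ⟨77, 117, 3, 40, [.N 17, .N 1]⟩,
  ⟨79, 118, 5, 24, [.N 19, .N 1]⟩,
  ⟨79, 119, 8, 15, [.N 7]⟩,
  ⟨80, 120, 1, 121, [.N 8]⟩,
  ⟨81, 119, 7, 18, [.N 14]⟩,
  ⟨81, 120, 9, 14, []⟩,
  ⟨82, 120, 9, 14, [.N 1]⟩,
  ⟨82, 121, 5, 25, [.N 18, .N 4]⟩,
  ⟨83, 121, 8, 16, [.N 9]⟩,
  ⟨83, 122, 8, 16, [.N 9]⟩,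
  ⟨84, 122, 4, 31, [.N 1, .N 20, .N 2]⟩,
  ⟨84, 123, 5, 25, [.N 21]⟩,
  ⟨85, 122, 8, 16, [.N 10]⟩,
  ⟨85, 123, 9, 14, [.N 2]⟩,
  ⟨86, 123, 5, 25, [.N 21, .N 1]⟩,
  ⟨86, 124, 4, 32, [.N 21]⟩,
  ⟨87, 124, 9, 14, [.N 3]⟩,
  ⟨88, 125, 4, 32, [.N 2, .N 21, .N 2]⟩,
  ⟨88, 126, 3, 43, [.N 19]⟩,
  ⟨90, 126, 8, 16, [.N 12]⟩,
  ⟨90, 127, 2, 64, [.N 15]⟩,
  ⟨92, 127, 6, 22, [.N 22]⟩,
  ⟨92, 128, 4, 33, [.N 1, .N 2, .N 23]⟩,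
  ⟨94, 129, 4, 33, [.N 22, .N 2]⟩,
  ⟨94, 130, 3, 44, [.N 20]⟩]

theorem tab_13_3 : tabB 13 cert_13_3 44 52 95 = true := by decide +kernel

/-- certificates for `m = 13`, `96 ≤ r < 144` -/
def cert_13_4 : List Cert := [
  ⟨96, 130, 9, 15, [.N 7]⟩,
  ⟨96, 131, 5, 27, [.N 24]⟩,
  ⟨98, 132, 3, 45, [.N 4, .N 1, .N 22, .N 5]⟩,
  ⟨98, 133, 6, 23, [.N 23]⟩,
  ⟨100, 133, 9, 15, [.N 9]⟩,
  ⟨100, 134, 10, 14, []⟩,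
  ⟨101, 135, 10, 14, []⟩,
  ⟨102, 134, 8, 17, [.N 17]⟩,
  ⟨102, 135, 10, 14, [.N 1]⟩,
  ⟨103, 135, 6, 23, [.N 23, .N 3]⟩,
  ⟨103, 136, 6, 23, [.N 25]⟩,
  ⟨104, 136, 4, 35, [.N 1, .N 24, .N 3]⟩,
  ⟨104, 137, 4, 35, [.N 25]⟩,
  ⟨105, 136, 10, 14, [.N 3]⟩,
  ⟨105, 137, 4, 35, [.N 25]⟩,
  ⟨106, 137, 10, 14, [.N 3]⟩,
  ⟨106, 138, 3, 47, [.N 22]⟩,
  ⟨107, 138, 9, 16, [.N 1, .N 5, .N 7]⟩,
  ⟨107, 139, 3, 47, [.N 22]⟩,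
  ⟨108, 138, 10, 14, [.N 4]⟩,
  ⟨109, 139, 4, 35, [.N 25, .N 2]⟩,
  ⟨109, 140, 5, 29, [.N 27]⟩,
  ⟨111, 140, 9, 16, [.N 14]⟩,
  ⟨111, 141, 6, 24, [.N 26, .N 2]⟩,
  ⟨113, 141, 9, 16, [.N 15]⟩,
  ⟨113, 142, 9, 16, [.N 5, .M 97 [(0, [(1326, 0), (73, 13), (6, 14)]), (97, [(1229, 0), (67, 12), (6, 13)]), (194, [(1132, 0), (61, 11), (6, 12)]), (291, [(1035, 0), (55, 10), (6, 11)]), (388, [(938, 0), (49, 9), (6, 10)]), (485, [(841, 0), (43, 8), (6, 9)]), (582, [(744, 0), (38, 7), (5, 8)]), (679, [(647, 0), (36, 6), (2, 7)]), (776, [(550, 0), (30, 5)]), (873, [(453, 0), (24, 4)]), (970, [(356, 0), (18, 3)]), (1067, [(259, 0), (12, 2)]), (1164, [(162, 0), (6, 1)]), (1261, [(65, 0)])], .N 5]⟩,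
  ⟨115, 143, 7, 21, [.N 24, .N 3]⟩,
  ⟨115, 144, 3, 49, [.N 23]⟩,
  ⟨117, 144, 3, 49, [.N 23, .N 2]⟩,
  ⟨117, 145, 5, 30, [.N 29]⟩,
  ⟨119, 145, 10, 15, [.N 9]⟩,
  ⟨119, 146, 5, 30, [.N 29, .N 1]⟩,
  ⟨121, 146, 9, 17, [.N 18]⟩,
  ⟨121, 147, 11, 14, []⟩,
  ⟨123, 148, 3, 50, [.N 22, .N 1, .N 7]⟩,
  ⟨123, 149, 9, 17, [.N 19]⟩,
  ⟨125, 149, 10, 15, [.N 10, .N 2]⟩,
  ⟨125, 150, 5, 31, [.N 31]⟩,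
  ⟨126, 150, 10, 16, [.N 5, .N 7, .N 1]⟩,
  ⟨127, 150, 10, 16, [.N 13]⟩,
  ⟨127, 151, 4, 38, [.N 29]⟩,
  ⟨128, 151, 5, 31, [.N 2, .N 31, .N 2]⟩,
  ⟨128, 152, 3, 51, [.N 25]⟩,
  ⟨129, 151, 10, 16, [.N 14]⟩,
  ⟨129, 152, 11, 14, [.N 4]⟩,
  ⟨130, 152, 4, 39, [.N 27, .N 7]⟩,
  ⟨130, 153, 5, 31, [.N 32]⟩,
  ⟨131, 152, 8, 20, [.N 28]⟩,
  ⟨132, 153, 10, 16, [.N 15]⟩,
  ⟨132, 154, 2, 78, [.N 19]⟩,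
  ⟨134, 154, 11, 15, [.N 6]⟩,
  ⟨134, 155, 6, 26, [.N 33, .N 1]⟩,
  ⟨136, 155, 11, 15, [.N 7]⟩,
  ⟨136, 156, 3, 53, [.N 26]⟩,
  ⟨138, 156, 9, 18, [.N 25]⟩,
  ⟨138, 157, 4, 40, [.N 7, .N 33, .N 3]⟩,
  ⟨140, 158, 4, 40, [.N 30, .N 4]⟩,
  ⟨140, 159, 5, 32, [.N 34]⟩,
  ⟨142, 159, 3, 54, [.N 26, .N 3]⟩,
  ⟨142, 160, 8, 21, [.N 31]⟩]

theorem tab_13_4 : tabB 13 cert_13_4 48 96 130 = true := by decide +kernel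

/-- certificates for `m = 13`, `144 ≤ r < 198` -/
def cert_13_5 : List Cert := [
  ⟨144, 160, 11, 15, [.N 11]⟩,
  ⟨144, 161, 12, 14, []⟩,
  ⟨146, 161, 11, 15, [.N 12]⟩,
  ⟨146, 162, 11, 15, [.N 12]⟩,
  ⟨148, 162, 10, 17, [.N 22]⟩,
  ⟨148, 163, 6, 28, [.N 37]⟩,
  ⟨150, 163, 11, 15, [.N 14]⟩,
  ⟨150, 164, 4, 42, [.N 33]⟩,
  ⟨151, 165, 3, 56, [.N 28]⟩,
  ⟨152, 164, 11, 15, [.N 15]⟩,
  ⟨152, 165, 3, 56, [.N 28]⟩,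
  ⟨153, 165, 7, 24, [.N 36, .N 3]⟩,
  ⟨153, 166, 3, 56, [.N 28]⟩,
  ⟨154, 165, 11, 16, [.N 16]⟩,
  ⟨154, 166, 12, 14, [.N 5]⟩,
  ⟨155, 166, 5, 34, [.N 36, .N 3]⟩,
  ⟨155, 167, 11, 16, [.N 16]⟩,
  ⟨157, 167, 11, 16, [.N 17]⟩,
  ⟨157, 168, 2, 85, [.N 21]⟩,
  ⟨159, 168, 11, 16, [.N 18]⟩,
  ⟨159, 169, 5, 34, [.N 38]⟩,
  ⟨161, 169, 12, 15, [.N 8]⟩,
  ⟨161, 170, 5, 35, [.N 38, .N 1]⟩,
  ⟨163, 170, 12, 15, [.N 9]⟩,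
  ⟨163, 171, 7, 25, [.N 37, .N 6]⟩,
  ⟨165, 171, 12, 15, [.N 10]⟩,
  ⟨165, 172, 5, 35, [.N 38, .N 3]⟩,
  ⟨167, 172, 12, 15, [.N 11]⟩,
  ⟨167, 173, 5, 35, [.N 13, .N 38, .N 4]⟩,
  ⟨169, 173, 11, 16, [.N 22]⟩,
  ⟨169, 174, 13, 14, []⟩,
  ⟨171, 174, 11, 16, [.N 23]⟩,
  ⟨171, 175, 13, 14, [.N 1]⟩,
  ⟨173, 175, 10, 18, [.N 32]⟩,
  ⟨173, 176, 13, 14, [.N 2]⟩,
  ⟨175, 176, 11, 17, [.N 25]⟩,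
  ⟨175, 177, 13, 14, [.N 3]⟩,
  ⟨177, 177, 11, 17, [.N 26]⟩,
  ⟨177, 178, 13, 14, [.N 4]⟩,
  ⟨179, 178, 11, 17, [.N 27]⟩,
  ⟨179, 179, 13, 14, [.N 5]⟩,
  ⟨180, 180, 5, 37, [.N 42]⟩,
  ⟨181, 180, 13, 14, [.N 6]⟩,
  ⟨182, 180, 12, 16, [.N 18]⟩,
  ⟨182, 181, 2, 91, [.N 23]⟩,
  ⟨184, 181, 12, 16, [.N 19]⟩,
  ⟨184, 182, 7, 27, [.N 46]⟩,
  ⟨186, 182, 12, 16, [.N 20]⟩,
  ⟨186, 183, 3, 62, [.N 32]⟩,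
  ⟨188, 183, 13, 15, [.N 9]⟩,
  ⟨188, 184, 7, 27, [.N 47]⟩,
  ⟨190, 184, 13, 15, [.N 10]⟩,
  ⟨190, 185, 4, 47, [.N 39]⟩,
  ⟨192, 185, 13, 15, [.N 11]⟩,
  ⟨192, 186, 6, 32, [.N 47]⟩,
  ⟨194, 186, 13, 15, [.N 12]⟩,
  ⟨194, 187, 13, 15, [.N 12]⟩,
  ⟨196, 187, 13, 15, [.N 13]⟩,
  ⟨196, 188, 14, 14, []⟩]

theorem tab_13_5 : tabB 13 cert_13_5 54 144 160 = true := by decide +kernel

/-- certificates for `m = 13`, `198 ≤ r < 258` -/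
def cert_13_6 : List Cert := [
  ⟨198, 188, 13, 15, [.N 12, .N 2]⟩,
  ⟨198, 189, 13, 15, [.N 14]⟩,
  ⟨200, 189, 7, 28, [.N 48, .N 4]⟩,
  ⟨200, 190, 5, 39, [.N 46]⟩,
  ⟨202, 190, 7, 28, [.N 48, .N 5]⟩,
  ⟨202, 191, 4, 48, [.N 41]⟩,
  ⟨204, 191, 8, 24, [.N 48, .N 4]⟩,
  ⟨204, 192, 3, 65, [.N 34]⟩,
  ⟨206, 192, 5, 39, [.N 45, .N 5]⟩,
  ⟨206, 193, 3, 65, [.N 34]⟩,
  ⟨208, 193, 14, 14, [.N 6]⟩,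
  ⟨208, 194, 5, 39, [.N 47]⟩,
  ⟨210, 194, 14, 14, [.N 7]⟩,
  ⟨211, 195, 2, 98, [.N 25]⟩,
  ⟨212, 194, 12, 17, [.N 31]⟩,
  ⟨213, 195, 13, 16, [.N 18, .N 3]⟩,
  ⟨213, 196, 5, 40, [.N 48]⟩,
  ⟨215, 196, 3, 66, [.N 34, .N 5]⟩,
  ⟨215, 197, 3, 66, [.N 35]⟩,
  ⟨217, 197, 5, 40, [.N 47, .N 5]⟩,
  ⟨217, 198, 4, 50, [.N 43]⟩,
  ⟨219, 198, 5, 40, [.N 47, .N 6]⟩,
  ⟨219, 199, 4, 50, [.N 43]⟩,
  ⟨221, 199, 13, 16, [.N 1, .N 11, .N 14]⟩,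
  ⟨221, 200, 5, 41, [.N 49]⟩,
  ⟨223, 199, 13, 16, [.N 25]⟩,
  ⟨223, 200, 5, 41, [.N 48, .N 5]⟩,
  ⟨225, 200, 13, 16, [.N 26]⟩,
  ⟨225, 201, 15, 14, []⟩,
  ⟨227, 201, 14, 15, [.N 15]⟩,
  ⟨227, 202, 15, 14, [.N 1]⟩,
  ⟨229, 202, 14, 15, [.N 16]⟩,
  ⟨229, 203, 15, 14, [.N 2]⟩,
  ⟨231, 203, 14, 15, [.N 16, .N 1]⟩,
  ⟨231, 204, 5, 41, [.N 51]⟩,
  ⟨233, 204, 14, 15, [.N 14, .N 4]⟩,
  ⟨233, 205, 4, 52, [.N 45]⟩,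
  ⟨235, 205, 5, 42, [.N 50, .N 5]⟩,
  ⟨235, 206, 3, 69, [.N 37]⟩,
  ⟨237, 206, 15, 14, [.N 6]⟩,
  ⟨237, 207, 5, 42, [.N 52]⟩,
  ⟨239, 207, 15, 14, [.N 7]⟩,
  ⟨239, 208, 2, 105, [.N 27]⟩,
  ⟨241, 207, 13, 16, [.N 33]⟩,
  ⟨241, 208, 15, 14, [.N 8]⟩,
  ⟨243, 208, 14, 15, [.N 23]⟩,
  ⟨244, 210, 3, 71, [.N 38]⟩,
  ⟨246, 210, 14, 16, [.N 9, .N 16]⟩,
  ⟨246, 211, 3, 71, [.N 38]⟩,
  ⟨248, 210, 13, 17, [.N 36]⟩,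
  ⟨248, 211, 14, 16, [.N 9, .N 17]⟩,
  ⟨250, 211, 13, 17, [.N 37]⟩,
  ⟨250, 212, 4, 54, [.N 47, .N 1]⟩,
  ⟨252, 212, 15, 15, [.N 13]⟩,
  ⟨252, 213, 4, 54, [.N 47, .N 2]⟩,
  ⟨254, 213, 15, 15, [.N 14]⟩,
  ⟨254, 214, 15, 15, [.N 14]⟩,
  ⟨256, 214, 15, 15, [.N 13, .N 2]⟩,
  ⟨256, 215, 16, 14, []⟩]

theorem tab_13_6 : tabB 13 cert_13_6 60 198 188 = true := by decide +kernel

def certx_13_12 : List Cert := [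
  ⟨12, 46, 2, 24, [.N 3]⟩]

theorem tabc_13_12 : certB 12 13 46 certx_13_12 = true := by decide +kernel

theorem tabx_13_12 [Infinite K] : Case K 12 13 46 := case_of_certB 12 13 46 _ tabc_13_12

def certx_13_14 : List Cert := [
  ⟨14, 48, 2, 25, [.N 3, .N 1]⟩]

theorem tabc_13_14 : certB 14 13 48 certx_13_14 = true := by decide +kernel

theorem tabx_13_14 [Infinite K] : Case K 14 13 48 := case_of_certB 14 13 48 _ tabc_13_14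


theorem small_13 [Infinite K] (r : ℕ) (hr : 10 ≤ r) (h12 : r ≠ 12) (h14 : r ≠ 14) (hlt : r < 256) (d : ℕ) : Case K r 13 d := by
  by_cases c0 : r < 12
  · exact case_of_tabB 13 _ 2 10 41 tab_13_0 r (by omega) (by omega) d
  by_cases c1 : r < 14
  · exact case_of_tabB 13 _ 1 13 47 tab_13_1 r (by omega) (by omega) d
  by_cases c2 : r < 52
  · exact case_of_tabB 13 _ 37 15 50 tab_13_2 r (by omega) (by omega) d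
  by_cases c3 : r < 96
  · exact case_of_tabB 13 _ 44 52 95 tab_13_3 r (by omega) (by omega) d
  by_cases c4 : r < 144
  · exact case_of_tabB 13 _ 48 96 130 tab_13_4 r (by omega) (by omega) d
  by_cases c5 : r < 198
  · exact case_of_tabB 13 _ 54 144 160 tab_13_5 r (by omega) (by omega) d
  exact case_of_tabB 13 _ 60 198 188 tab_13_6 r (by omega) (by omega) d

end Pool.Agent.Helper42.SM
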