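import Pool.Agent.Helper22.E6.Crit

set_option autoImplicit false

/-! # Certificates for m = 8, r < (m + 3) ^ 2 (helper22, cut by helper42), MP_e6aa12_ag -/

namespace Pool.Agent.Helper42.SM

open Pool.Agent.Helper22.E6 Pool.Agent.Helper41.Fat

variable {K : Type*} [Field K]
/-- certificates for `m = 8`, `10 ≤ r < 54` -/
def cert_8_0 : List Cert := [
  ⟨10, 25, 2, 13, [.N 1, .M 7 [(0, [(63, 0), (7, 9), (1, 10)]), (7, [(56, 0), (6, 8)]), (14, [(49, 0), (5, 6)]), (21, [(42, 0), (5, 6)]), (28, [(35, 0), (4, 5)]), (35, [(28, 0), (3, 4)]), (42, [(21, 0), (2, 2)]), (49, [(14, 0), (2, 2)]), (56, [(7, 0), (1, 1)])], .N 1]⟩,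
  ⟨10, 26, 2, 14, [.N 1, .N 2]⟩,
  ⟨12, 27, 2, 14, [.N 3]⟩,
  ⟨12, 28, 2, 15, [.N 1, .M 7 [(0, [(71, 0), (7, 10), (1, 11)]), (7, [(64, 0), (6, 8), (1, 10)]), (14, [(57, 0), (6, 8)]), (21, [(50, 0), (5, 7)]), (28, [(43, 0), (4, 6)]), (35, [(36, 0), (3, 4)]), (42, [(29, 0), (3, 4)]), (49, [(22, 0), (2, 3)]), (56, [(15, 0), (1, 2)]), (63, [(8, 0)]), (70, [(1, 0)])], .N 1, .N 1]⟩,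
  ⟨13, 30, 2, 16, [.N 3]⟩,
  ⟨14, 30, 2, 16, [.N 3, .N 1]⟩,
  ⟨14, 31, 3, 11, [.N 2]⟩,
  ⟨15, 31, 3, 11, [.N 1, .N 1, .N 1]⟩,
  ⟨15, 32, 3, 11, [.N 3]⟩,
  ⟨16, 32, 3, 11, [.N 3]⟩,
  ⟨16, 33, 4, 9, []⟩,
  ⟨17, 33, 3, 12, [.N 2, .N 2]⟩,
  ⟨17, 34, 3, 12, [.N 2, .N 2]⟩,
  ⟨18, 34, 4, 9, [.N 1]⟩,
  ⟨19, 35, 2, 18, [.N 3, .N 3]⟩,
  ⟨19, 36, 3, 13, [.N 4]⟩,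
  ⟨21, 37, 3, 13, [.N 4, .N 1]⟩,
  ⟨21, 38, 2, 20, [.N 5]⟩,
  ⟨23, 39, 2, 20, [.N 3, .N 3, .N 2]⟩,
  ⟨23, 40, 4, 11, [.N 3]⟩,
  ⟨24, 40, 3, 14, [.N 2, .N 3, .N 2]⟩,
  ⟨24, 41, 1, 42, [.N 4]⟩,
  ⟨25, 40, 3, 14, [.N 6]⟩,
  ⟨25, 41, 5, 9, []⟩,
  ⟨26, 41, 5, 9, [.N 1]⟩,
  ⟨26, 42, 3, 15, [.N 5, .N 2]⟩,
  ⟨27, 42, 4, 11, [.N 5]⟩,
  ⟨27, 43, 4, 11, [.N 5]⟩,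
  ⟨28, 43, 4, 11, [.N 3, .N 3]⟩,
  ⟨28, 44, 3, 15, [.N 7]⟩,
  ⟨30, 44, 4, 12, [.N 6]⟩,
  ⟨30, 45, 2, 23, [.N 1, .N 7, .N 1]⟩,
  ⟨32, 46, 4, 12, [.N 6, .N 1]⟩,
  ⟨32, 47, 3, 16, [.N 8]⟩,
  ⟨34, 47, 5, 10, [.N 4]⟩,
  ⟨34, 48, 3, 17, [.N 8, .N 1]⟩,
  ⟨36, 49, 5, 10, [.N 5]⟩,
  ⟨36, 50, 6, 9, []⟩,
  ⟨37, 50, 3, 17, [.N 1, .N 8, .N 2]⟩,
  ⟨37, 51, 6, 9, []⟩,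
  ⟨38, 50, 4, 13, [.N 9]⟩,
  ⟨38, 51, 6, 9, [.N 1]⟩,
  ⟨39, 51, 4, 13, [.N 7, .N 3]⟩,
  ⟨39, 52, 4, 14, [.N 9]⟩,
  ⟨40, 52, 6, 9, [.N 2]⟩,
  ⟨41, 52, 4, 14, [.N 10]⟩,
  ⟨41, 53, 2, 27, [.N 7, .N 3, .N 2]⟩,
  ⟨43, 54, 2, 28, [.N 7, .N 4, .N 2]⟩,
  ⟨43, 55, 2, 28, [.N 9]⟩,
  ⟨45, 55, 5, 12, [.N 8, .N 1]⟩,
  ⟨45, 56, 3, 19, [.N 11]⟩,
  ⟨47, 56, 6, 10, [.N 5]⟩,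
  ⟨47, 57, 6, 10, [.N 4, .N 1]⟩,
  ⟨49, 57, 5, 12, [.N 10]⟩,
  ⟨49, 58, 7, 9, []⟩,
  ⟨51, 59, 5, 12, [.N 4, .M 39 [(0, [(334, 0), (44, 8), (6, 9)]), (39, [(295, 0), (38, 7), (6, 8)]), (78, [(256, 0), (32, 6), (6, 7)]), (117, [(217, 0), (26, 5), (6, 6)]), (156, [(178, 0), (20, 4), (6, 5)]), (195, [(139, 0), (17, 3), (3, 4)]), (234, [(100, 0), (12, 2)]), (273, [(61, 0), (6, 1)]), (312, [(22, 0)])], .N 3]⟩,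
  ⟨51, 60, 4, 16, [.N 13]⟩,
  ⟨52, 60, 4, 16, [.N 11, .N 3]⟩,
  ⟨53, 60, 7, 9, [.N 2]⟩,
  ⟨53, 61, 3, 21, [.N 13]⟩]

theorem tab_8_0 : tabB 8 cert_8_0 44 10 25 = true := by decide +kernel

/-- certificates for `m = 8`, `54 ≤ r < 110` -/
def cert_8_1 : List Cert := [
  ⟨54, 60, 5, 13, [.N 12]⟩,
  ⟨54, 61, 6, 11, [.N 3, .N 6]⟩,
  ⟨55, 61, 7, 9, [.N 3]⟩,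
  ⟨56, 62, 2, 32, [.N 3, .N 13, .N 2]⟩,
  ⟨56, 63, 2, 32, [.N 11]⟩,
  ⟨58, 63, 3, 22, [.N 1, .N 13, .N 3]⟩,
  ⟨58, 64, 3, 22, [.N 14]⟩,
  ⟨60, 64, 2, 33, [.N 11, .N 2]⟩,
  ⟨60, 65, 3, 22, [.N 14]⟩,
  ⟨62, 65, 5, 14, [.N 13, .N 2]⟩,
  ⟨62, 66, 5, 14, [.N 14]⟩,
  ⟨64, 66, 7, 10, [.N 7]⟩,
  ⟨64, 67, 8, 9, []⟩,
  ⟨66, 67, 7, 10, [.N 8]⟩,
  ⟨66, 68, 7, 10, [.N 8]⟩,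
  ⟨68, 68, 7, 10, [.N 9]⟩,
  ⟨68, 69, 4, 18, [.N 17]⟩,
  ⟨70, 69, 7, 10, [.N 10]⟩,
  ⟨70, 70, 3, 24, [.N 16]⟩,
  ⟨71, 70, 7, 11, [.N 3, .M 56 [(0, [(504, 0), (8, 9)]), (56, [(448, 0), (7, 8)]), (112, [(392, 0), (6, 7)]), (168, [(336, 0), (5, 6)]), (224, [(280, 0), (4, 5)]), (280, [(224, 0), (3, 4)]), (336, [(168, 0), (2, 3)]), (392, [(112, 0), (1, 2)]), (448, [(56, 0)])], .N 7]⟩,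
  ⟨71, 71, 2, 36, [.N 13]⟩,
  ⟨72, 70, 8, 9, [.N 4]⟩,
  ⟨73, 71, 7, 11, [.N 1, .N 3, .M 58 [(0, [(520, 0), (7, 8), (1, 9)]), (58, [(462, 0), (6, 7), (1, 8)]), (116, [(404, 0), (5, 6), (1, 7)]), (174, [(346, 0), (4, 5), (1, 6)]), (232, [(288, 0), (3, 4), (1, 5)]), (290, [(230, 0), (2, 2), (1, 4)]), (348, [(172, 0), (2, 2)]), (406, [(114, 0), (1, 1)]), (464, [(56, 0)])], .N 7]⟩,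
  ⟨73, 72, 2, 37, [.N 13]⟩,
  ⟨75, 71, 5, 15, [.N 19]⟩,
  ⟨75, 72, 7, 11, [.N 3, .M 58 [(0, [(520, 0), (21, 8), (3, 9)]), (58, [(462, 0), (18, 7), (3, 8)]), (116, [(404, 0), (15, 6), (3, 7)]), (174, [(346, 0), (12, 5), (3, 6)]), (232, [(288, 0), (9, 4), (3, 5)]), (290, [(230, 0), (6, 3), (3, 4)]), (348, [(172, 0), (3, 1), (3, 3)]), (406, [(114, 0), (3, 1)]), (464, [(56, 0)])], .N 7]⟩,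
  ⟨77, 72, 6, 13, [.N 17]⟩,
  ⟨77, 73, 3, 25, [.N 14, .N 2, .N 7]⟩,
  ⟨79, 73, 5, 15, [.N 20]⟩,
  ⟨79, 74, 3, 25, [.N 17, .N 2]⟩,
  ⟨81, 74, 7, 11, [.N 14]⟩,
  ⟨81, 75, 9, 9, []⟩,
  ⟨83, 75, 7, 11, [.N 15]⟩,
  ⟨83, 76, 9, 9, [.N 1]⟩,
  ⟨85, 76, 7, 11, [.N 16]⟩,
  ⟨85, 77, 5, 16, [.N 21]⟩,
  ⟨87, 77, 8, 10, [.N 11]⟩,
  ⟨87, 78, 3, 27, [.N 19]⟩,
  ⟨89, 78, 9, 9, [.N 4]⟩,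
  ⟨89, 79, 5, 16, [.N 22]⟩,
  ⟨90, 80, 2, 41, [.N 15]⟩,
  ⟨91, 79, 9, 9, [.N 5]⟩,
  ⟨92, 80, 5, 17, [.N 22, .N 2]⟩,
  ⟨94, 80, 8, 11, [.N 14]⟩,
  ⟨94, 81, 5, 17, [.N 23, .N 1]⟩,
  ⟨96, 81, 8, 11, [.N 15]⟩,
  ⟨96, 82, 5, 17, [.N 24]⟩,
  ⟨98, 82, 9, 10, [.N 8]⟩,
  ⟨98, 83, 9, 10, [.N 8]⟩,
  ⟨100, 83, 9, 10, [.N 9]⟩,
  ⟨100, 84, 10, 9, []⟩,
  ⟨102, 84, 5, 17, [.N 24, .N 3]⟩,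
  ⟨102, 85, 3, 29, [.N 21]⟩,
  ⟨104, 85, 2, 43, [.N 5, .N 22, .N 8]⟩,
  ⟨104, 86, 3, 29, [.N 22]⟩,
  ⟨106, 85, 7, 13, [.N 24]⟩,
  ⟨106, 86, 10, 9, [.N 3]⟩,
  ⟨108, 86, 9, 10, [.N 13]⟩,
  ⟨108, 87, 5, 18, [.N 27]⟩]

theorem tab_8_1 : tabB 8 cert_8_1 56 54 60 = true := by decide +kernel

/-- certificates for `m = 8`, `110 ≤ r < 187` -/
def cert_8_2 : List Cert := [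
  ⟨110, 87, 10, 9, [.N 5]⟩,
  ⟨110, 88, 2, 45, [.N 17]⟩,
  ⟨112, 88, 10, 9, [.N 6]⟩,
  ⟨115, 90, 4, 23, [.N 27]⟩,
  ⟨117, 90, 7, 13, [.N 24, .N 4]⟩,
  ⟨117, 91, 4, 23, [.N 27]⟩,
  ⟨119, 91, 7, 14, [.N 24, .N 5]⟩,
  ⟨119, 92, 1, 93, [.N 10]⟩,
  ⟨121, 91, 8, 12, [.N 25]⟩,
  ⟨121, 92, 11, 9, []⟩,
  ⟨123, 92, 10, 10, [.N 11]⟩,
  ⟨123, 93, 10, 10, [.N 11]⟩,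
  ⟨125, 93, 10, 10, [.N 9, .N 3]⟩,
  ⟨125, 94, 4, 24, [.N 29]⟩,
  ⟨127, 94, 7, 14, [.N 24, .N 9]⟩,
  ⟨127, 95, 3, 32, [.N 25]⟩,
  ⟨129, 94, 9, 11, [.N 22]⟩,
  ⟨129, 95, 11, 9, [.N 4]⟩,
  ⟨131, 95, 11, 9, [.N 5]⟩,
  ⟨131, 96, 11, 9, [.N 5]⟩,
  ⟨133, 96, 11, 9, [.N 6]⟩,
  ⟨133, 97, 2, 49, [.N 19]⟩,
  ⟨135, 97, 11, 9, [.N 7]⟩,
  ⟨137, 97, 9, 11, [.N 25]⟩,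
  ⟨142, 100, 8, 13, [.N 31]⟩,
  ⟨144, 100, 11, 10, [.N 11]⟩,
  ⟨144, 101, 12, 9, []⟩,
  ⟨146, 101, 6, 17, [.N 34, .N 5]⟩,
  ⟨146, 102, 12, 9, []⟩,
  ⟨148, 101, 10, 11, [.N 22]⟩,
  ⟨148, 102, 6, 18, [.N 37]⟩,
  ⟨150, 102, 11, 10, [.N 14]⟩,
  ⟨150, 103, 4, 26, [.N 33]⟩,
  ⟨152, 103, 4, 26, [.N 31, .N 7]⟩,
  ⟨152, 104, 3, 35, [.N 28]⟩,
  ⟨154, 103, 10, 11, [.N 25]⟩,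
  ⟨154, 104, 12, 9, [.N 5]⟩,
  ⟨156, 104, 12, 9, [.N 6]⟩,
  ⟨156, 105, 2, 53, [.N 21]⟩,
  ⟨158, 105, 12, 9, [.N 7]⟩,
  ⟨158, 106, 2, 54, [.N 21]⟩,
  ⟨160, 105, 10, 11, [.N 27]⟩,
  ⟨160, 106, 12, 9, [.N 8]⟩,
  ⟨162, 106, 12, 9, [.N 9]⟩,
  ⟨171, 110, 12, 10, [.N 13]⟩,
  ⟨173, 110, 11, 11, [.N 9, .N 17]⟩,
  ⟨173, 111, 4, 28, [.N 37]⟩,
  ⟨175, 110, 11, 11, [.N 25]⟩,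
  ⟨175, 111, 13, 9, [.N 3]⟩,
  ⟨177, 111, 12, 10, [.N 16]⟩,
  ⟨177, 112, 3, 38, [.N 31]⟩,
  ⟨179, 112, 11, 11, [.N 1, .N 10, .N 18]⟩,
  ⟨179, 113, 2, 57, [.N 23]⟩,
  ⟨181, 112, 11, 11, [.N 28]⟩,
  ⟨181, 113, 9, 13, [.N 40]⟩,
  ⟨183, 113, 13, 9, [.N 7]⟩,
  ⟨183, 114, 2, 58, [.N 23]⟩,
  ⟨185, 113, 10, 12, [.N 37]⟩,
  ⟨185, 114, 13, 9, [.N 8]⟩]

theorem tab_8_2 : tabB 8 cert_8_2 77 110 87 = true := by decide +kernel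


theorem small_8 [Infinite K] (r : ℕ) (hr : 10 ≤ r) (hlt : r < 121) (d : ℕ) : Case K r 8 d := by
  by_cases c0 : r < 54
  · exact case_of_tabB 8 _ 44 10 25 tab_8_0 r (by omega) (by omega) d
  by_cases c1 : r < 110
  · exact case_of_tabB 8 _ 56 54 60 tab_8_1 r (by omega) (by omega) d
  exact case_of_tabB 8 _ 77 110 87 tab_8_2 r (by omega) (by omega) d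

end Pool.Agent.Helper42.SM
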