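import Pool.Agent.Helper22.E6.Crit

set_option autoImplicit false

/-! # Certificates for m = 9, r < (m + 3) ^ 2 (helper22, cut by helper42), MP_e6aa12_ag -/

namespace Pool.Agent.Helper42.SM

open Pool.Agent.Helper22.E6 Pool.Agent.Helper41.Fat

variable {K : Type*} [Field K]
/-- certificates for `m = 9`, `10 ≤ r < 14` -/
def cert_9_0 : List Cert := [
  ⟨10, 28, 2, 15, [.N 1, .M 7 [(0, [(71, 0), (7, 10), (1, 11)]), (7, [(64, 0), (6, 8), (1, 10)]), (14, [(57, 0), (6, 8)]), (21, [(50, 0), (5, 7)]), (28, [(43, 0), (4, 6)]), (35, [(36, 0), (3, 4)]), (42, [(29, 0), (3, 4)]), (49, [(22, 0), (2, 3)]), (56, [(15, 0), (1, 2)]), (63, [(8, 0)]), (70, [(1, 0)])], .N 1]⟩,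
  ⟨10, 29, 2, 15, [.N 1, .N 1, .N 1]⟩,
  ⟨12, 31, 2, 16, [.N 3]⟩,
  ⟨12, 32, 2, 17, [.N 3]⟩,
  ⟨13, 33, 3, 12, [.N 2]⟩]

theorem tab_9_0 : tabB 9 cert_9_0 4 10 28 = true := by decide +kernel

/-- certificates for `m = 9`, `15 ≤ r < 21` -/
def cert_9_1 : List Cert := [
  ⟨15, 35, 3, 12, [.N 1, .N 1, .N 1]⟩,
  ⟨15, 36, 3, 13, [.N 3]⟩,
  ⟨16, 36, 3, 13, [.N 3]⟩,
  ⟨16, 37, 4, 10, []⟩,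
  ⟨17, 37, 2, 19, [.N 3, .N 2]⟩,
  ⟨17, 38, 2, 20, [.N 1, .N 4]⟩,
  ⟨18, 38, 3, 13, [.N 4]⟩,
  ⟨19, 39, 3, 14, [.N 4]⟩,
  ⟨19, 40, 2, 21, [.N 3, .N 3]⟩]

theorem tab_9_1 : tabB 9 cert_9_1 6 15 35 = true := by decide +kernel

/-- certificates for `m = 9`, `22 ≤ r < 23` -/
def cert_9_2 : List Cert := [
  ⟨22, 44, 3, 15, [.N 5]⟩]

theorem tab_9_2 : tabB 9 cert_9_2 1 22 43 = true := by decide +kernel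

/-- certificates for `m = 9`, `24 ≤ r < 68` -/
def cert_9_3 : List Cert := [
  ⟨24, 44, 1, 45, [.N 4]⟩,
  ⟨24, 45, 4, 12, [.M 17 [(0, [(178, 0), (10, 10), (2, 11)]), (17, [(161, 0), (9, 9), (1, 10)]), (34, [(144, 0), (8, 8)]), (51, [(127, 0), (7, 7)]), (68, [(110, 0), (6, 6)]), (85, [(93, 0), (5, 5)]), (102, [(76, 0), (4, 4)]), (119, [(59, 0), (3, 3)]), (136, [(42, 0), (2, 2)]), (153, [(25, 0), (1, 1)]), (170, [(8, 0)])], .M 19 [(0, [(190, 0), (8, 10)]), (19, [(171, 0), (7, 9)]), (38, [(152, 0), (6, 8)]), (57, [(133, 0), (5, 7)]), (76, [(114, 0), (4, 6)]), (95, [(95, 0), (3, 5)]), (114, [(76, 0), (2, 4)]), (133, [(57, 0), (1, 3)]), (152, [(38, 0)]), (171, [(19, 0)])], .N 2]⟩,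
  ⟨25, 45, 3, 16, [.N 6]⟩,
  ⟨25, 46, 5, 10, []⟩,
  ⟨26, 46, 5, 10, [.N 1]⟩,
  ⟨26, 47, 2, 24, [.N 1, .N 6, .N 1]⟩,
  ⟨27, 47, 4, 12, [.N 5]⟩,
  ⟨27, 48, 5, 10, [.N 1]⟩,
  ⟨28, 48, 3, 17, [.N 7]⟩,
  ⟨28, 49, 3, 17, [.N 5, .N 3]⟩,
  ⟨30, 50, 4, 13, [.N 6]⟩,
  ⟨30, 51, 2, 26, [.N 7]⟩,
  ⟨32, 52, 2, 27, [.N 7, .N 1]⟩,
  ⟨32, 53, 3, 18, [.N 8]⟩,
  ⟨34, 53, 5, 11, [.N 4]⟩,
  ⟨34, 54, 3, 19, [.N 8, .N 1]⟩,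
  ⟨35, 55, 5, 12, [.N 5]⟩,
  ⟨36, 55, 5, 12, [.N 5]⟩,
  ⟨36, 56, 6, 10, []⟩,
  ⟨37, 56, 3, 19, [.N 1, .N 8, .N 2]⟩,
  ⟨37, 57, 6, 10, []⟩,
  ⟨38, 56, 4, 15, [.N 9]⟩,
  ⟨38, 57, 6, 10, [.N 1]⟩,
  ⟨39, 57, 3, 20, [.N 10]⟩,
  ⟨39, 58, 4, 15, [.N 7, .N 3]⟩,
  ⟨40, 58, 6, 10, [.N 2]⟩,
  ⟨41, 59, 4, 15, [.N 9, .N 1]⟩,
  ⟨41, 60, 2, 31, [.N 9]⟩,
  ⟨43, 60, 5, 13, [.N 8]⟩,
  ⟨43, 61, 5, 13, [.N 7, .N 1]⟩,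
  ⟨45, 62, 3, 21, [.N 4, .N 9, .N 2]⟩,
  ⟨45, 63, 3, 22, [.N 11]⟩,
  ⟨47, 63, 6, 11, [.N 5]⟩,
  ⟨47, 64, 6, 11, [.N 5]⟩,
  ⟨49, 64, 5, 13, [.N 10]⟩,
  ⟨49, 65, 7, 10, []⟩,
  ⟨50, 66, 6, 12, [.N 7]⟩,
  ⟨51, 66, 6, 12, [.N 7]⟩,
  ⟨51, 67, 5, 14, [.N 11]⟩,
  ⟨52, 66, 3, 23, [.N 13]⟩,
  ⟨52, 67, 6, 12, [.N 3, .N 5]⟩,
  ⟨53, 67, 6, 12, [.N 8]⟩,
  ⟨53, 68, 4, 18, [.N 13]⟩,
  ⟨54, 68, 3, 23, [.N 1, .N 13, .N 1]⟩,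
  ⟨54, 69, 3, 24, [.N 13]⟩,
  ⟨55, 68, 4, 18, [.N 14]⟩,
  ⟨56, 69, 6, 12, [.N 9]⟩,
  ⟨56, 70, 2, 36, [.N 11]⟩,
  ⟨58, 70, 6, 12, [.N 10]⟩,
  ⟨58, 71, 4, 18, [.N 14, .N 1]⟩,
  ⟨60, 71, 5, 15, [.N 14]⟩,
  ⟨60, 72, 6, 13, [.M 38 [(0, [(423, 0), (22, 11)]), (38, [(385, 0), (20, 10)]), (76, [(347, 0), (18, 9)]), (114, [(309, 0), (16, 8)]), (152, [(271, 0), (14, 7)]), (190, [(233, 0), (12, 6)]), (228, [(195, 0), (10, 5)]), (266, [(157, 0), (8, 4)]), (304, [(119, 0), (6, 3)]), (342, [(81, 0), (4, 2)]), (380, [(43, 0), (2, 1)]), (418, [(5, 0)])], .N 2, .M 47 [(0, [(467, 0), (25, 9), (3, 10)]), (47, [(420, 0), (22, 8), (3, 9)]), (94, [(373, 0), (19, 7), (3, 8)]), (141, [(326, 0), (16, 6), (3, 7)]), (188, [(279, 0), (13, 5), (3, 6)]), (235, [(232,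 0), (10, 4), (3, 5)]), (282, [(185, 0), (7, 3), (3, 4)]), (329, [(138, 0), (5, 2), (2, 3)]), (376, [(91, 0), (3, 1), (2, 2)]), (423, [(44, 0)])], .N 5]⟩,
  ⟨62, 73, 5, 15, [.N 13, .N 2]⟩,
  ⟨62, 74, 6, 13, [.N 11]⟩,
  ⟨64, 74, 7, 11, [.N 7]⟩,
  ⟨64, 75, 8, 10, []⟩,
  ⟨66, 75, 6, 13, [.N 13]⟩,
  ⟨66, 76, 7, 11, [.N 8]⟩,
  ⟨67, 77, 4, 20, [.N 17]⟩]

theorem tab_9_3 : tabB 9 cert_9_3 44 24 44 = true := by decide +kernel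

/-- certificates for `m = 9`, `68 ≤ r < 123` -/
def cert_9_4 : List Cert := [
  ⟨68, 76, 7, 11, [.N 9]⟩,
  ⟨68, 77, 4, 20, [.N 17]⟩,
  ⟨69, 77, 5, 16, [.N 14, .N 4]⟩,
  ⟨69, 78, 3, 27, [.N 16]⟩,
  ⟨70, 77, 7, 12, [.N 10]⟩,
  ⟨70, 78, 8, 10, [.N 3]⟩,
  ⟨71, 78, 3, 27, [.N 16, .N 1]⟩,
  ⟨71, 79, 5, 16, [.N 17]⟩,
  ⟨73, 79, 7, 12, [.N 11]⟩,
  ⟨73, 80, 2, 41, [.N 13]⟩,
  ⟨75, 80, 8, 11, [.N 5]⟩,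
  ⟨75, 81, 3, 28, [.N 17]⟩,
  ⟨77, 81, 6, 14, [.N 17]⟩,
  ⟨77, 82, 3, 28, [.N 17, .N 1]⟩,
  ⟨79, 82, 5, 17, [.N 20]⟩,
  ⟨79, 83, 3, 28, [.N 17, .N 2]⟩,
  ⟨81, 83, 7, 12, [.N 14]⟩,
  ⟨81, 84, 9, 10, []⟩,
  ⟨83, 84, 6, 15, [.N 19]⟩,
  ⟨83, 85, 9, 10, [.N 1]⟩,
  ⟨85, 85, 6, 15, [.N 20]⟩,
  ⟨85, 86, 9, 10, [.N 2]⟩,
  ⟨87, 86, 7, 13, [.N 17]⟩,
  ⟨87, 87, 9, 10, [.N 3]⟩,
  ⟨88, 88, 3, 30, [.N 19]⟩,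
  ⟨89, 88, 9, 10, [.N 4]⟩,
  ⟨90, 88, 8, 12, [.N 12]⟩,
  ⟨90, 89, 2, 45, [.N 15]⟩,
  ⟨92, 89, 8, 12, [.N 13]⟩,
  ⟨92, 90, 5, 19, [.N 23]⟩,
  ⟨94, 90, 8, 12, [.N 14]⟩,
  ⟨94, 91, 3, 31, [.N 20]⟩,
  ⟨96, 91, 9, 11, [.N 7]⟩,
  ⟨96, 92, 4, 24, [.N 23]⟩,
  ⟨98, 92, 9, 11, [.N 8]⟩,
  ⟨98, 93, 7, 14, [.N 20]⟩,
  ⟨100, 93, 9, 11, [.N 9]⟩,
  ⟨100, 94, 10, 10, []⟩,
  ⟨102, 94, 9, 11, [.N 9, .N 1]⟩,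
  ⟨102, 95, 7, 14, [.N 22]⟩,
  ⟨104, 95, 9, 11, [.N 8, .N 3]⟩,
  ⟨104, 96, 4, 25, [.N 25]⟩,
  ⟨106, 96, 3, 33, [.N 21, .N 3]⟩,
  ⟨106, 97, 3, 33, [.N 22]⟩,
  ⟨108, 97, 10, 10, [.N 4]⟩,
  ⟨108, 98, 2, 50, [.N 17]⟩,
  ⟨110, 98, 10, 10, [.N 5]⟩,
  ⟨111, 99, 2, 50, [.N 17]⟩,
  ⟨112, 98, 8, 13, [.N 21]⟩,
  ⟨113, 99, 9, 12, [.N 14, .N 1]⟩,
  ⟨113, 100, 3, 34, [.N 23]⟩,
  ⟨115, 100, 6, 17, [.N 26, .N 4]⟩,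
  ⟨115, 101, 3, 34, [.N 23]⟩,
  ⟨117, 101, 7, 15, [.N 24, .N 4]⟩,
  ⟨117, 102, 4, 26, [.N 27]⟩,
  ⟨119, 101, 7, 15, [.N 28]⟩,
  ⟨119, 102, 9, 12, [.N 4, .M 94 [(0, [(935, 0), (41, 9), (5, 10)]), (94, [(841, 0), (36, 8), (5, 9)]), (188, [(747, 0), (31, 7), (5, 8)]), (282, [(653, 0), (26, 6), (5, 7)]), (376, [(559, 0), (21, 5), (5, 6)]), (470, [(465, 0), (16, 4), (5, 5)]), (564, [(371, 0), (11, 3), (5, 4)]), (658, [(277, 0), (8, 2), (3, 3)]), (752, [(183, 0), (5, 1), (3, 2)]), (846, [(89, 0)])], .N 10]⟩,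
  ⟨121, 102, 9, 12, [.N 18]⟩,
  ⟨121, 103, 11, 10, []⟩]

theorem tab_9_4 : tabB 9 cert_9_4 55 68 76 = true := by decide +kernel

/-- certificates for `m = 9`, `123 ≤ r < 198` -/
def cert_9_5 : List Cert := [
  ⟨123, 103, 9, 12, [.N 19]⟩,
  ⟨123, 104, 11, 10, [.N 1]⟩,
  ⟨125, 104, 10, 11, [.N 12]⟩,
  ⟨125, 105, 5, 22, [.N 31]⟩,
  ⟨127, 105, 10, 11, [.N 11, .N 2]⟩,
  ⟨127, 106, 4, 27, [.N 29]⟩,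
  ⟨129, 106, 11, 10, [.N 4]⟩,
  ⟨129, 107, 3, 36, [.N 25]⟩,
  ⟨131, 107, 11, 10, [.N 5]⟩,
  ⟨131, 108, 2, 55, [.N 19]⟩,
  ⟨133, 107, 8, 14, [.N 29]⟩,
  ⟨133, 108, 11, 10, [.N 6]⟩,
  ⟨135, 108, 9, 13, [.N 24]⟩,
  ⟨136, 110, 3, 37, [.N 26]⟩,
  ⟨138, 110, 6, 19, [.N 33, .N 3]⟩,
  ⟨140, 110, 9, 13, [.N 26]⟩,
  ⟨140, 111, 6, 19, [.N 35]⟩,
  ⟨142, 111, 11, 11, [.N 10]⟩,
  ⟨142, 112, 11, 11, [.N 10]⟩,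
  ⟨144, 112, 11, 11, [.N 11]⟩,
  ⟨144, 113, 12, 10, []⟩,
  ⟨146, 113, 6, 19, [.N 34, .N 5]⟩,
  ⟨146, 114, 12, 10, []⟩,
  ⟨148, 113, 9, 13, [.N 29]⟩,
  ⟨148, 114, 12, 10, [.N 2]⟩,
  ⟨150, 114, 10, 12, [.N 23]⟩,
  ⟨150, 115, 4, 29, [.N 33]⟩,
  ⟨152, 115, 12, 10, [.N 4]⟩,
  ⟨152, 116, 3, 39, [.N 28]⟩,
  ⟨154, 116, 12, 10, [.N 5]⟩,
  ⟨154, 117, 3, 40, [.N 28]⟩,
  ⟨156, 116, 9, 13, [.N 32]⟩,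
  ⟨156, 117, 12, 10, [.N 6]⟩,
  ⟨158, 117, 12, 10, [.N 7]⟩,
  ⟨158, 118, 12, 10, [.N 7]⟩,
  ⟨160, 118, 12, 10, [.N 8]⟩,
  ⟨165, 121, 5, 25, [.N 39]⟩,
  ⟨167, 121, 8, 16, [.N 33, .N 10]⟩,
  ⟨167, 122, 1, 123, [.N 12]⟩,
  ⟨169, 121, 9, 14, [.N 37]⟩,
  ⟨169, 122, 13, 10, []⟩,
  ⟨171, 122, 12, 11, [.N 13]⟩,
  ⟨171, 123, 12, 11, [.N 13]⟩,
  ⟨173, 123, 6, 21, [.N 41, .N 4]⟩,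
  ⟨173, 124, 5, 25, [.N 41]⟩,
  ⟨175, 124, 11, 12, [.N 6, .M 139 [(0, [(1386, 0), (48, 9), (6, 10)]), (139, [(1247, 0), (42, 8), (6, 9)]), (278, [(1108, 0), (36, 7), (6, 8)]), (417, [(969, 0), (30, 6), (6, 7)]), (556, [(830, 0), (24, 5), (6, 6)]), (695, [(691, 0), (18, 4), (6, 5)]), (834, [(552, 0), (12, 3), (6, 4)]), (973, [(413, 0), (6, 2), (6, 3)]), (1112, [(274, 0), (4, 1), (2, 2)]), (1251, [(135, 0)])], .N 15]⟩,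
  ⟨175, 125, 3, 42, [.N 31]⟩,
  ⟨177, 124, 11, 12, [.N 26]⟩,
  ⟨177, 125, 7, 18, [.N 44]⟩,
  ⟨179, 125, 13, 10, [.N 5]⟩,
  ⟨179, 126, 3, 43, [.N 31]⟩,
  ⟨181, 126, 6, 22, [.N 43, .N 4]⟩,
  ⟨181, 127, 2, 64, [.N 23]⟩,
  ⟨183, 126, 12, 11, [.N 18]⟩,
  ⟨183, 127, 13, 10, [.N 7]⟩,
  ⟨185, 127, 13, 10, [.N 8]⟩,
  ⟨185, 128, 5, 26, [.N 43]⟩,
  ⟨187, 128, 13, 10, [.N 9]⟩,
  ⟨189, 128, 12, 11, [.N 21]⟩,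
  ⟨196, 132, 14, 10, []⟩]

theorem tab_9_5 : tabB 9 cert_9_5 75 123 103 = true := by decide +kernel

def certx_9_14 : List Cert := [
  ⟨14, 35, 3, 12, [.N 2]⟩]

theorem tabx_9_14 : certB 14 9 35 certx_9_14 = true := by decide +kernel

def certx_9_21 : List Cert := [
  ⟨21, 41, 3, 14, [.N 5]⟩]

theorem tabx_9_21 : certB 21 9 41 certx_9_21 = true := by decide +kernel

def certx_9_23 : List Cert := [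
  ⟨23, 45, 4, 12, [.N 3]⟩]

theorem tabx_9_23 : certB 23 9 45 certx_9_23 = true := by decide +kernel


theorem small_9 [Infinite K] (r : ℕ) (hr : 10 ≤ r) (h14 : r ≠ 14) (h21 : r ≠ 21) (h23 : r ≠ 23) (hlt : r < 144) (d : ℕ) : Case K r 9 d := by
  by_cases c0 : r < 14
  · exact case_of_tabB 9 _ 4 10 28 tab_9_0 r (by omega) (by omega) d
  by_cases c1 : r < 21
  · exact case_of_tabB 9 _ 6 15 35 tab_9_1 r (by omega) (by omega) d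
  by_cases c2 : r < 23
  · exact case_of_tabB 9 _ 1 22 43 tab_9_2 r (by omega) (by omega) d
  by_cases c3 : r < 68
  · exact case_of_tabB 9 _ 44 24 44 tab_9_3 r (by omega) (by omega) d
  by_cases c4 : r < 123
  · exact case_of_tabB 9 _ 55 68 76 tab_9_4 r (by omega) (by omega) d
  exact case_of_tabB 9 _ 75 123 103 tab_9_5 r (by omega) (by omega) d

end Pool.Agent.Helper42.SM
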