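import Pool.Agent.Helper22.E6.T1
import Pool.Agent.Helper22.E6.T5
import Pool.Agent.Helper22.E6.T7
import Pool.Agent.Helper42.SM.T8
import Pool.Agent.Helper42.SM.T9
import Pool.Agent.Helper42.SM.T10
import Pool.Agent.Helper42.SM.T11
import Pool.Agent.Helper42.SM.T12
import Pool.Agent.Helper42.SM.T13
import Pool.Agent.Helper22.E6.G10_6a
import Pool.Agent.Helper22.E6.G10_6b
import Pool.Agent.Helper22.E6.G12_6a
import Pool.Agent.Helper22.E6.G12_6b
import Pool.Agent.Helper22.E6.G14_9a
import Pool.Agent.Helper22.E6.G14_9b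
import Pool.Agent.Helper22.E6.G21_9a
import Pool.Agent.Helper22.E6.G21_9b
import Pool.Agent.Helper22.E6.G23_9a
import Pool.Agent.Helper22.E6.G23_9b
import Pool.Agent.Helper22.E6.G15_11a
import Pool.Agent.Helper22.E6.G15_11b
import Pool.Agent.Helper22.E6.G15_11c
import Pool.Agent.Helper22.E6.G10_12a
import Pool.Agent.Helper22.E6.G10_12b
import Pool.Agent.Helper22.E6.G10_12c
import Pool.Agent.Helper22.E6.G14_12a
import Pool.Agent.Helper22.E6.G14_12b
import Pool.Agent.Helper22.E6.G12_13a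
import Pool.Agent.Helper22.E6.G12_13b
import Pool.Agent.Helper22.E6.G12_13c
import Pool.Agent.Helper22.E6.G14_13a
import Pool.Agent.Helper22.E6.G14_13b
import Pool.Agent.Helper22.E6.G14_13c

set_option autoImplicit false

/-! # All `m ≤ 13`, `10 ≤ r < (m + 3) ^ 2` in every characteristic (helper22; cut by helper42) -/

namespace Pool.Agent.Helper42.SM

open Pool.Agent.Helper22.E6 Pool.Agent.Helper41.Fat

variable {K : Type*} [Field K]

theorem case_10_6_19 [Infinite K] : Case K 10 6 19 := by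
  by_cases h : ((330 : ℕ) : K) = 0
  · have h1 : ((330 : ℕ) : K) = 0 := cast_zero_of_dvd 1 (by norm_num) h
    exact case_of_path 10 6 19 _ _ path_10_6_b (good_of_eta _ _ _ _ _ _ _ _ _ _ _ eta_10_6_b h1 (by simp))
  · exact case_of_path 10 6 19 _ _ path_10_6_a (good_of_eta _ _ _ _ _ _ _ _ _ _ _ eta_10_6_a (by simp) h)

theorem case_12_6_21 [Infinite K] : Case K 12 6 21 := by
  by_cases h : ((6 : ℕ) : K) = 0
  · have h1 : ((6 : ℕ) : K) = 0 := cast_zero_of_dvd 1 (by norm_num) h
    exact case_of_path 12 6 21 _ _ path_12_6_b (good_of_eta _ _ _ _ _ _ _ _ _ _ _ eta_12_6_b h1 (by simp))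
  · exact case_of_path 12 6 21 _ _ path_12_6_a (good_of_eta _ _ _ _ _ _ _ _ _ _ _ eta_12_6_a (by simp) h)

theorem case_14_9_34 [Infinite K] : Case K 14 9 34 := by
  by_cases h : ((77 : ℕ) : K) = 0
  · have h1 : ((77 : ℕ) : K) = 0 := cast_zero_of_dvd 1 (by norm_num) h
    exact case_of_path 14 9 34 _ _ path_14_9_b (good_of_eta _ _ _ _ _ _ _ _ _ _ _ eta_14_9_b h1 (by simp))
  · exact case_of_path 14 9 34 _ _ path_14_9_a (good_of_eta _ _ _ _ _ _ _ _ _ _ _ eta_14_9_a (by simp) h)

theorem case_21_9_42 [Infinite K] : Case K 21 9 42 := by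
  by_cases h : ((36 : ℕ) : K) = 0
  · have h1 : ((6 : ℕ) : K) = 0 := cast_zero_of_dvd 2 (by norm_num) h
    exact case_of_path 21 9 42 _ _ path_21_9_b (good_of_eta _ _ _ _ _ _ _ _ _ _ _ eta_21_9_b h1 (by simp))
  · exact case_of_path 21 9 42 _ _ path_21_9_a (good_of_eta _ _ _ _ _ _ _ _ _ _ _ eta_21_9_a (by simp) h)

theorem case_23_9_44 [Infinite K] : Case K 23 9 44 := by
  by_cases h : ((12 : ℕ) : K) = 0
  · have h1 : ((6 : ℕ) : K) = 0 := cast_zero_of_dvd 2 (by norm_num) h
    exact case_of_path 23 9 44 _ _ path_23_9_b (good_of_eta _ _ _ _ _ _ _ _ _ _ _ eta_23_9_b h1 (by simp))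
  · exact case_of_path 23 9 44 _ _ path_23_9_a (good_of_eta _ _ _ _ _ _ _ _ _ _ _ eta_23_9_a (by simp) h)

theorem case_15_11_43 [Infinite K] : Case K 15 11 43 := by
  by_cases h : ((41990 : ℕ) : K) = 0
  · have h1 : ((20995 * 2 : ℕ) : K) = 0 := cast_zero_of_dvd 1 (by norm_num) h
    rw [Nat.cast_mul, mul_eq_zero] at h1
    rcases h1 with h1 | h1
    on_goal 2 => exact case_of_path 15 11 43 _ _ path_15_11_c (good_of_eta _ _ _ _ _ _ _ _ _ _ _ eta_15_11_c h1 (by simp))
    exact case_of_path 15 11 43 _ _ path_15_11_b (good_of_eta _ _ _ _ _ _ _ _ _ _ _ eta_15_11_b h1 (by simp))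
  · exact case_of_path 15 11 43 _ _ path_15_11_a (good_of_eta _ _ _ _ _ _ _ _ _ _ _ eta_15_11_a (by simp) h)

theorem case_10_12_38 [Infinite K] : Case K 10 12 38 := by
  by_cases h : ((596755849306617000 : ℕ) : K) = 0
  · have h1 : ((663062054785130 * 3 : ℕ) : K) = 0 := cast_zero_of_dvd 3 (by norm_num) h
    rw [Nat.cast_mul, mul_eq_zero] at h1
    rcases h1 with h1 | h1
    on_goal 2 => exact case_of_path 10 12 38 _ _ path_10_12_c (good_of_eta _ _ _ _ _ _ _ _ _ _ _ eta_10_12_c h1 (by simp))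
    exact case_of_path 10 12 38 _ _ path_10_12_b (good_of_eta _ _ _ _ _ _ _ _ _ _ _ eta_10_12_b h1 (by simp))
  · exact case_of_path 10 12 38 _ _ path_10_12_a (good_of_eta _ _ _ _ _ _ _ _ _ _ _ eta_10_12_a (by simp) h)

theorem case_14_12_45 [Infinite K] : Case K 14 12 45 := by
  by_cases h : ((1260 : ℕ) : K) = 0
  · have h1 : ((210 : ℕ) : K) = 0 := cast_zero_of_dvd 2 (by norm_num) h
    exact case_of_path 14 12 45 _ _ path_14_12_b (good_of_eta _ _ _ _ _ _ _ _ _ _ _ eta_14_12_b h1 (by simp))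
  · exact case_of_path 14 12 45 _ _ path_14_12_a (good_of_eta _ _ _ _ _ _ _ _ _ _ _ eta_14_12_a (by simp) h)

theorem case_12_13_45 [Infinite K] : Case K 12 13 45 := by
  by_cases h : ((65520 : ℕ) : K) = 0
  · have h1 : ((390 * 7 : ℕ) : K) = 0 := cast_zero_of_dvd 4 (by norm_num) h
    rw [Nat.cast_mul, mul_eq_zero] at h1
    rcases h1 with h1 | h1
    on_goal 2 => exact case_of_path 12 13 45 _ _ path_12_13_c (good_of_eta _ _ _ _ _ _ _ _ _ _ _ eta_12_13_c h1 (by simp))
    exact case_of_path 12 13 45 _ _ path_12_13_b (good_of_eta _ _ _ _ _ _ _ _ _ _ _ eta_12_13_b h1 (by simp))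
  · exact case_of_path 12 13 45 _ _ path_12_13_a (good_of_eta _ _ _ _ _ _ _ _ _ _ _ eta_12_13_a (by simp) h)

theorem case_14_13_49 [Infinite K] : Case K 14 13 49 := by
  by_cases h : ((144593272354274509969800 : ℕ) : K) = 0
  · have h1 : ((1652872340583842135 * 6 : ℕ) : K) = 0 := cast_zero_of_dvd 7 (by norm_num) h
    rw [Nat.cast_mul, mul_eq_zero] at h1
    rcases h1 with h1 | h1
    on_goal 2 => exact case_of_path 14 13 49 _ _ path_14_13_c (good_of_eta _ _ _ _ _ _ _ _ _ _ _ eta_14_13_c h1 (by simp))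
    exact case_of_path 14 13 49 _ _ path_14_13_b (good_of_eta _ _ _ _ _ _ _ _ _ _ _ eta_14_13_b h1 (by simp))
  · exact case_of_path 14 13 49 _ _ path_14_13_a (good_of_eta _ _ _ _ _ _ _ _ _ _ _ eta_14_13_a (by simp) h)


theorem row_10_6 [Infinite K] (d : ℕ) : Case K 10 6 d :=
  case_of_crit 10 6 19 (by norm_num) (by norm_num) case_10_6_19
    (case_of_certB 10 6 20 _ tabx_6_10) d

theorem row_12_6 [Infinite K] (d : ℕ) : Case K 12 6 d :=
  case_of_crit 12 6 20 (by norm_num) (by norm_num) (case_of_certB 12 6 20 _ tabx_6_12)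
    case_12_6_21 d

theorem row_14_9 [Infinite K] (d : ℕ) : Case K 14 9 d :=
  case_of_crit 14 9 34 (by norm_num) (by norm_num) case_14_9_34
    (case_of_certB 14 9 35 _ tabx_9_14) d

theorem row_21_9 [Infinite K] (d : ℕ) : Case K 21 9 d :=
  case_of_crit 21 9 41 (by norm_num) (by norm_num) (case_of_certB 21 9 41 _ tabx_9_21)
    case_21_9_42 d

theorem row_23_9 [Infinite K] (d : ℕ) : Case K 23 9 d :=
  case_of_crit 23 9 44 (by norm_num) (by norm_num) case_23_9_44
    (case_of_certB 23 9 45 _ tabx_9_23) d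

theorem row_15_11 [Infinite K] (d : ℕ) : Case K 15 11 d :=
  case_of_crit 15 11 43 (by norm_num) (by norm_num) case_15_11_43
    (case_of_certB 15 11 44 _ tabx_11_15) d

theorem row_10_12 [Infinite K] (d : ℕ) : Case K 10 12 d :=
  case_of_crit 10 12 38 (by norm_num) (by norm_num) case_10_12_38
    (case_of_certB 10 12 39 _ tabx_12_10) d

theorem row_14_12 [Infinite K] (d : ℕ) : Case K 14 12 d :=
  case_of_crit 14 12 45 (by norm_num) (by norm_num) case_14_12_45
    (case_of_certB 14 12 46 _ tabx_12_14) d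

theorem row_12_13 [Infinite K] (d : ℕ) : Case K 12 13 d :=
  case_of_crit 12 13 45 (by norm_num) (by norm_num) case_12_13_45 tabx_13_12 d

theorem row_14_13 [Infinite K] (d : ℕ) : Case K 14 13 d :=
  case_of_crit 14 13 48 (by norm_num) (by norm_num) tabx_13_14 case_14_13_49 d

/-- Small multiplicities: `m ≤ 13`, `10 ≤ r`, and `r < (m + 3) ^ 2` if `8 ≤ m`. -/
theorem small13 [Infinite K] (r m d : ℕ) (hr : 10 ≤ r) (hm : m ≤ 13)
    (hlt : 8 ≤ m → r < (m + 3) ^ 2) :
    Good K r m (fun b => d + 1 - b) (min ((d + 2).choose 2) (r * (m + 1).choose 2)) := by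
  change Case K r m d
  interval_cases m
  · unfold Case
    have h := Good.final (K := K) r 0 (fun b => d + 1 - b)
    exact h.le (by simp)
  · exact small_1 r hr d
  · exact small_2 r hr d
  · exact small_3 r hr d
  · exact small_4 r hr d
  · exact small_5 r hr d
  · by_cases h1 : r = 10
    · subst h1; exact row_10_6 d
    by_cases h2 : r = 12
    · subst h2; exact row_12_6 d
    exact Pool.Agent.Helper22.E6.small_6 r hr h1 h2 d
  · exact small_7 r hr d
  · exact small_8 r hr (by simpa using hlt (by norm_num)) d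
  · by_cases h1 : r = 14
    · subst h1; exact row_14_9 d
    by_cases h2 : r = 21
    · subst h2; exact row_21_9 d
    by_cases h3 : r = 23
    · subst h3; exact row_23_9 d
    exact small_9 r hr h1 h2 h3 (by simpa using hlt (by norm_num)) d
  · exact small_10 r hr (by simpa using hlt (by norm_num)) d
  · by_cases h1 : r = 15
    · subst h1; exact row_15_11 d
    exact small_11 r hr h1 (by simpa using hlt (by norm_num)) d
  · by_cases h1 : r = 10
    · subst h1; exact row_10_12 d
    by_cases h2 : r = 14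
    · subst h2; exact row_14_12 d
    exact small_12 r hr h1 h2 (by simpa using hlt (by norm_num)) d
  · by_cases h1 : r = 12
    · subst h1; exact row_12_13 d
    by_cases h2 : r = 14
    · subst h2; exact row_14_13 d
    exact small_13 r hr h1 h2 (by simpa using hlt (by norm_num)) d

end Pool.Agent.Helper42.SM
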